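import Pool.Agent.DAL.Sq

/-!
# The trees generated by branches

`Gen c δ` is generated by the sequences of length one and the multiples of the tails of the branches
`c ε`, `ε < δ` indecomposable.
-/

set_option autoImplicit false

namespace Pool.Agent.DAL

open Ordinal Sq

/-- generators: the sequences of length one and the multiples of tails of the chosen branches -/
def gens (c : Ordinal.{0} → Sq) (δ : Ordinal.{0}) : Set Sq :=
  {s | (∃ k, s = dg k) ∨ ∃ ε β, ∃ z : ℤ, Ind ε ∧ ε < δ ∧ β < ε ∧ z ≠ 0 ∧ s = z • tl β (c ε)}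

/-- the set of sequences generated by the branches `c ε`, `ε < δ` -/
noncomputable def Gen (c : Ordinal.{0} → Sq) (δ : Ordinal.{0}) : Submonoid Sq :=
  Submonoid.closure (gens c δ)

/-- the properties of the set of elements of length `< δ` of the tree -/
structure TP (δ : Ordinal.{0}) (T : Submonoid Sq) : Prop where
  ind : Ind δ
  len : ∀ s ∈ T, s.len < δ
  dg : ∀ k, Sq.dg k ∈ T
  smul : ∀ z : ℤ, z ≠ 0 → ∀ s ∈ T, z • s ∈ T
  tl : ∀ β, ∀ s ∈ T, Sq.tl β s ∈ T
  res : ∀ γ, ∀ s ∈ T, s.res γ ∈ T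
  all : ∀ γ < δ, ∃ s ∈ T, s.len = γ

/-- `c ε` is a branch of the tree of length `ε` (`ε < δ` indecomposable) -/
def Good (c : Ordinal.{0} → Sq) (δ : Ordinal.{0}) : Prop :=
  ∀ ε < δ, Ind ε → (c ε).len = ε ∧ ∀ γ < ε, (c ε).res γ ∈ Gen c ε

lemma gens_mono (c : Ordinal.{0} → Sq) {δ δ' : Ordinal.{0}} (h : δ ≤ δ') :
    gens c δ ⊆ gens c δ' := by
  rintro s (hs | ⟨ε, β, z, h1, h2, h3, h4, h5⟩)
  · exact Or.inl hs
  · exact Or.inr ⟨ε, β, z, h1, h2.trans_le h, h3, h4, h5⟩

lemma Gen_mono (c : Ordinal.{0} → Sq) {δ δ' : Ordinal.{0}} (h : δ ≤ δ') : Gen c δ ≤ Gen c δ' :=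
  Submonoid.closure_mono (gens_mono c h)

lemma Gen_congr {c c' : Ordinal.{0} → Sq} {δ : Ordinal.{0}} (h : ∀ ε < δ, Ind ε → c ε = c' ε) :
    Gen c δ = Gen c' δ := by
  have h1 : gens c δ = gens c' δ := by
    apply Set.eq_of_subset_of_subset
    · rintro s (hs | ⟨ε, β, z, h1, h2, h3, h4, h5⟩)
      · exact Or.inl hs
      · exact Or.inr ⟨ε, β, z, h1, h2, h3, h4, by rw [← h ε h2 h1]; exact h5⟩
    · rintro s (hs | ⟨ε, β, z, h1, h2, h3, h4, h5⟩)
      · exact Or.inl hs
      · exact Or.inr ⟨ε, β, z, h1, h2, h3, h4, by rw [h ε h2 h1]; exact h5⟩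
  rw [Gen, Gen, h1]

lemma Good.mono {c : Ordinal.{0} → Sq} {δ δ' : Ordinal.{0}} (h : Good c δ') (hd : δ ≤ δ') :
    Good c δ := fun ε hε => h ε (hε.trans_le hd)

lemma Good.congr {c c' : Ordinal.{0} → Sq} {δ : Ordinal.{0}} (h : Good c δ)
    (hc : ∀ ε < δ, Ind ε → c ε = c' ε) : Good c' δ := by
  intro ε hε hi
  rw [← hc ε hε hi, ← Gen_congr fun η hη => hc η (hη.trans hε)]
  exact h ε hε hi

lemma len_gen {c : Ordinal.{0} → Sq} {δ ε β : Ordinal.{0}} (hg : Good c δ) (z : ℤ) (hi : Ind ε)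
    (hε : ε < δ) (hβ : β < ε) : (z • tl β (c ε)).len = ε := by
  rw [len_smul, len_tl, (hg ε hε hi).1, hi.sub hβ]

lemma mem_Gen_branch {c : Ordinal.{0} → Sq} {δ ε β : Ordinal.{0}} {z : ℤ} (hi : Ind ε)
    (hε : ε < δ) (hβ : β < ε) (hz : z ≠ 0) : z • tl β (c ε) ∈ Gen c δ :=
  Submonoid.subset_closure (Or.inr ⟨ε, β, z, hi, hε, hβ, hz, rfl⟩)

lemma mem_Gen_dg (c : Ordinal.{0} → Sq) (δ : Ordinal.{0}) (k : ℤ) : dg k ∈ Gen c δ :=
  Submonoid.subset_closure (Or.inl ⟨k, rfl⟩)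

lemma Gen_smul {c : Ordinal.{0} → Sq} {δ : Ordinal.{0}} {z : ℤ} (hz : z ≠ 0) {s : Sq}
    (hs : s ∈ Gen c δ) : z • s ∈ Gen c δ := by
  induction hs using Submonoid.closure_induction with
  | mem x hx =>
    rcases hx with ⟨k, rfl⟩ | ⟨ε, β, w, h1, h2, h3, h4, rfl⟩
    · rw [smul_dg]
      exact mem_Gen_dg _ _ _
    · rw [smul_smul']
      exact mem_Gen_branch h1 h2 h3 (mul_ne_zero hz h4)
  | one =>
    rw [smul_one']
    exact one_mem _
  | mul x y _ _ hx hy =>
    rw [smul_mul']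
    exact mul_mem hx hy

lemma Gen_tl {c : Ordinal.{0} → Sq} {δ : Ordinal.{0}} (hg : Good c δ) {s : Sq}
    (hs : s ∈ Gen c δ) : ∀ β, tl β s ∈ Gen c δ := by
  induction hs using Submonoid.closure_induction with
  | mem x hx =>
    intro γ
    rcases hx with ⟨k, rfl⟩ | ⟨ε, β, w, h1, h2, h3, h4, rfl⟩
    · by_cases h : γ = 0
      · rw [h, tl_zero]
        exact mem_Gen_dg _ _ _
      · rw [tl_of_le (by rw [len_dg]; exact Order.one_le_iff_ne_zero.2 h)]
        exact one_mem _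
    · rw [tl_smul, tl_tl]
      by_cases h : β + γ < ε
      · exact mem_Gen_branch h1 h2 h h4
      · rw [tl_of_le (by rw [(hg ε h2 h1).1]; exact not_lt.1 h), smul_one']
        exact one_mem _
  | one =>
    intro γ
    rw [tl_of_le (by rw [len_one]; exact zero_le)]
    exact one_mem _
  | mul x y hx' _ hx hy =>
    intro γ
    rcases le_total γ x.len with h | h
    · rw [tl_mul_le _ _ h]
      exact mul_mem (hx γ) (by assumption)
    · obtain ⟨r, rfl⟩ : ∃ r, γ = x.len + r := ⟨γ - x.len, (Ordinal.add_sub_cancel_of_le h).symm⟩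
      rw [tl_mul_ge]
      exact hy r

lemma Gen_res {c : Ordinal.{0} → Sq} {δ : Ordinal.{0}} (hg : Good c δ) {s : Sq}
    (hs : s ∈ Gen c δ) : ∀ β, s.res β ∈ Gen c δ := by
  induction hs using Submonoid.closure_induction with
  | mem x hx =>
    intro γ
    rcases hx with ⟨k, rfl⟩ | ⟨ε, β, w, h1, h2, h3, h4, rfl⟩
    · by_cases h : γ = 0
      · rw [h, res_zero]
        exact one_mem _
      · rw [res_of_le _ (by rw [len_dg]; exact Order.one_le_iff_ne_zero.2 h)]
        exact mem_Gen_dg _ _ _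
    · rw [res_smul, res_tl]
      by_cases h : β + γ < ε
      · exact Gen_smul h4 (Gen_tl hg (Gen_mono c h2.le ((hg ε h2 h1).2 _ h)) β)
      · rw [res_of_le _ (by rw [(hg ε h2 h1).1]; exact not_lt.1 h)]
        exact mem_Gen_branch h1 h2 h3 h4
  | one =>
    intro γ
    rw [res_of_le _ (by rw [len_one]; exact zero_le)]
    exact one_mem _
  | mul x y hx' _ hx hy =>
    intro γ
    rcases le_total γ x.len with h | h
    · rw [res_mul_le _ _ h]
      exact hx γ
    · obtain ⟨r, rfl⟩ : ∃ r, γ = x.len + r := ⟨γ - x.len, (Ordinal.add_sub_cancel_of_le h).symm⟩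
      rw [res_mul_ge]
      exact mul_mem hx' (hy r)

theorem TP_Gen {c : Ordinal.{0} → Sq} {δ : Ordinal.{0}} (hi : Ind δ) (hg : Good c δ) :
    TP δ (Gen c δ) where
  ind := hi
  len s hs := by
    induction hs using Submonoid.closure_induction with
    | mem x hx =>
      rcases hx with ⟨k, rfl⟩ | ⟨ε, β, w, h1, h2, h3, h4, rfl⟩
      · exact hi.1
      · rw [len_gen hg w h1 h2 h3]
        exact h2
    | one => exact hi.pos
    | mul x y _ _ hx hy => exact hi.2 _ hx _ hy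
  dg := mem_Gen_dg c δ
  smul _ hz _ hs := Gen_smul hz hs
  tl β _ hs := Gen_tl hg hs β
  res γ _ hs := Gen_res hg hs γ
  all γ := by
    induction γ using WellFoundedLT.induction with
    | ind γ ih =>
      intro hγ
      by_cases h1 : Ind γ
      · exact ⟨(1 : ℤ) • tl 0 (c γ), mem_Gen_branch h1 hγ h1.pos one_ne_zero, by
          rw [len_gen hg _ h1 hγ h1.pos]⟩
      by_cases h2 : γ ≤ 1
      · rcases h2.lt_or_eq with h3 | h3
        · exact ⟨1, one_mem _, (Order.lt_one_iff.1 h3).symm⟩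
        · exact ⟨dg 0, mem_Gen_dg _ _ _, h3.symm⟩
      have h3 : ∃ a < γ, ∃ b < γ, γ ≤ a + b := by
        by_contra hcon
        push Not at hcon
        exact h1 ⟨not_le.1 h2, hcon⟩
      obtain ⟨a, ha, b, hb, hab⟩ := h3
      obtain ⟨s, hs, hs'⟩ := ih a ha (ha.trans hγ)
      have h4 : γ - a < γ := (Ordinal.sub_le.2 hab).trans_lt hb
      obtain ⟨t, ht, ht'⟩ := ih _ h4 (h4.trans hγ)
      exact ⟨s * t, mul_mem hs ht, by
        rw [len_mul, hs', ht', Ordinal.add_sub_cancel_of_le ha.le]⟩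

theorem Gen_lt {c : Ordinal.{0} → Sq} {δ δ' : Ordinal.{0}} (hg : Good c δ') {s : Sq}
    (hs : s ∈ Gen c δ') : s.len < δ → s ∈ Gen c δ := by
  induction hs using Submonoid.closure_induction with
  | mem x hx =>
    intro h
    rcases hx with ⟨k, rfl⟩ | ⟨ε, β, w, h1, h2, h3, h4, rfl⟩
    · exact mem_Gen_dg _ _ _
    · rw [len_gen hg w h1 h2 h3] at h
      exact mem_Gen_branch h1 h h3 h4
  | one => exact fun _ => one_mem _
  | mul x y _ _ hx hy =>
    intro h
    rw [len_mul] at h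
    exact mul_mem (hx (le_self_add.trans_lt h)) (hy (le_add_self.trans_lt h))

theorem Gen_str {c : Ordinal.{0} → Sq} {δ δ' : Ordinal.{0}} (hi : Ind δ) (hd : δ < δ')
    (hg : Good c δ') {s : Sq} (hs : s ∈ Gen c δ') : s.len ≤ δ → s.len < δ ∨
      ∃ s' ∈ Gen c δ, ∃ β < δ, ∃ z : ℤ, z ≠ 0 ∧ s = s' * z • tl β (c δ) := by
  induction hs using Submonoid.closure_induction_right with
  | one => exact fun _ => Or.inl hi.pos
  | mul_right x hx y hy ih =>
    intro h
    rw [len_mul] at h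
    rcases hy with ⟨k, rfl⟩ | ⟨ε, β, w, h1, h2, h3, h4, rfl⟩
    · left
      rw [len_mul, len_dg] at *
      exact lt_of_le_of_ne h hi.add_ne
    · rw [len_gen hg w h1 h2 h3] at h
      have h5 : x.len < δ := by
        apply lt_of_le_of_ne (le_self_add.trans h)
        intro h6
        rw [h6] at h
        have h7 : δ + 0 < δ + ε := (add_lt_add_iff_left _).2 h1.pos
        rw [add_zero] at h7
        exact absurd h (not_le.2 h7)
      rcases (le_add_self.trans h : ε ≤ δ).lt_or_eq with h6 | h6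
      · left
        rw [len_mul, len_gen hg w h1 h2 h3]
        exact hi.2 _ h5 _ h6
      · right
        subst h6
        exact ⟨x, Gen_lt hg hx h5, β, h3, w, h4, rfl⟩

lemma countable_Iio {δ : Ordinal.{0}} (h : δ < ω₁) : (Set.Iio δ).Countable := by
  have h1 : Cardinal.mk (Set.Iio δ) ≤ Cardinal.aleph0 := by
    rw [Cardinal.mk_Iio_ordinal]
    have h2 : δ.card < Cardinal.aleph 1 := by
      rw [← Cardinal.lt_ord, Cardinal.ord_aleph]
      exact h
    have h3 : δ.card ≤ Cardinal.aleph0 := by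
      rwa [← Cardinal.succ_aleph0, Order.lt_succ_iff] at h2
    rw [Cardinal.lift_le_aleph0]
    exact h3
  exact Cardinal.mk_le_aleph0_iff.1 h1

theorem Gen_countable {c : Ordinal.{0} → Sq} {δ : Ordinal.{0}} (h : δ < ω₁) :
    (Gen c δ : Set Sq).Countable := by
  have h0 : Countable (Set.Iio δ) := (countable_Iio h).to_subtype
  have h1 : (gens c δ).Countable := by
    have h2 : gens c δ ⊆ Set.range (fun k : ℤ => dg k) ∪
        Set.range (fun p : Set.Iio δ × Set.Iio δ × ℤ => p.2.2 • tl p.2.1.1 (c p.1.1)) := by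
      rintro s (⟨k, rfl⟩ | ⟨ε, β, z, h1, h2, h3, h4, rfl⟩)
      · exact Or.inl ⟨k, rfl⟩
      · exact Or.inr ⟨⟨⟨ε, h2⟩, ⟨β, h3.trans h2⟩, z⟩, rfl⟩
    exact ((Set.countable_range _).union (Set.countable_range _)).mono h2
  have h3 : Countable (gens c δ) := h1.to_subtype
  have h4 : (Gen c δ : Set Sq) ⊆
      Set.range (fun l : List (gens c δ) => (l.map Subtype.val).prod) := by
    intro s hs
    obtain ⟨l, hl, rfl⟩ := Submonoid.exists_list_of_mem_closure hs
    refine ⟨l.attach.map fun x => ⟨x.1, hl x.1 x.2⟩, ?_⟩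
    simp
  exact (Set.countable_range _).mono h4

end Pool.Agent.DAL
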