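import Pool.Agent.DAL.Dia
import Pool.Agent.DAL.Gen

/-!
# Closure points of functions on `ω₁`
-/

set_option autoImplicit false

namespace Pool.Agent.DAL

open Ordinal Sq

lemma exists_bound {X : Set Ordinal.{0}} (hc : X.Countable) (hX : ∀ x ∈ X, x < ω₁) :
    ∃ γ < ω₁, ∀ x ∈ X, x < γ := by
  rcases X.eq_empty_or_nonempty with h | h
  · exact ⟨0, ind_omega_one.pos, fun x hx => by rw [h] at hx; exact absurd hx (Set.notMem_empty x)⟩
  obtain ⟨f, hf⟩ := hc.exists_eq_range h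
  refine ⟨(⨆ n, f n) + 1, ind_omega_one.add_one ?_, ?_⟩
  · apply Ordinal.iSup_lt_omega_one
    intro n
    apply hX
    rw [hf]
    exact ⟨n, rfl⟩
  · intro x hx
    rw [hf] at hx
    obtain ⟨n, rfl⟩ := hx
    exact Order.lt_add_one_iff.2 (Ordinal.le_iSup f n)

lemma exists_bound_fun {h : Ordinal.{0} → Ordinal.{0}} (hh : ∀ β < ω₁, h β < ω₁) {β : Ordinal.{0}}
    (hβ : β < ω₁) : ∃ γ < ω₁, β < γ ∧ ∀ β' ≤ β, h β' < γ := by
  have h1 : (h '' Set.Iic β ∪ {β}).Countable := by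
    refine Set.Countable.union (Set.Countable.image ?_ _) (Set.countable_singleton _)
    refine (countable_Iio (ind_omega_one.add_one hβ)).mono fun x hx => ?_
    exact Order.lt_add_one_iff.2 (Set.mem_Iic.1 hx)
  obtain ⟨γ, hγ, hγ'⟩ := exists_bound h1 (by
    rintro x (⟨y, hy, rfl⟩ | rfl)
    · exact hh y (lt_of_le_of_lt hy hβ)
    · exact hβ)
  exact ⟨γ, hγ, hγ' _ (Or.inr rfl), fun β' hβ' => hγ' _ (Or.inl ⟨β', hβ', rfl⟩)⟩

/-- the set of closure points of a function is closed unbounded -/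
theorem isClub_closure {h : Ordinal.{0} → Ordinal.{0}} (hh : ∀ β < ω₁, h β < ω₁) :
    IsClub {δ | δ < ω₁ ∧ 0 < δ ∧ ∀ β < δ, h β < δ} := by
  refine ⟨fun δ hδ => hδ.1, ?_, ?_⟩
  · intro α hα
    choose! H hH1 hH2 hH3 using fun β (hβ : β < ω₁) => exists_bound_fun hh hβ
    obtain ⟨a, ha0, haS⟩ : ∃ a : ℕ → Ordinal.{0}, a 0 = α ∧ ∀ n, a (n + 1) = H (a n) :=
      ⟨fun n => Nat.rec α (fun _ x => H x) n, rfl, fun _ => rfl⟩
    have haω : ∀ n, a n < ω₁ := by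
      intro n
      induction n with
      | zero => rw [ha0]; exact hα
      | succ n ih => rw [haS]; exact hH1 _ ih
    have hle : ∀ n, a n ≤ ⨆ n, a n := fun n => Ordinal.le_iSup a n
    have hlt : ∀ n, a n < ⨆ n, a n := fun n => by
      refine lt_of_lt_of_le ?_ (hle (n + 1))
      rw [haS]
      exact hH2 _ (haω n)
    have h0 : α < ⨆ n, a n := by
      have h1 := hlt 0
      rwa [ha0] at h1
    refine ⟨⨆ n, a n, ⟨Ordinal.iSup_lt_omega_one haω, lt_of_le_of_lt zero_le h0, ?_⟩, h0⟩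
    intro β hβ
    rw [Ordinal.lt_iSup_iff] at hβ
    obtain ⟨n, hn⟩ := hβ
    refine lt_of_lt_of_le ?_ (hle (n + 1))
    rw [haS]
    exact hH3 _ (haω n) β hn.le
  · rintro δ hδ h0 hδ'
    refine ⟨hδ, h0, fun β hβ => ?_⟩
    obtain ⟨γ, hγ, hγ1, hγ2⟩ := hδ' β hβ
    exact (hγ.2.2 β hγ1).trans hγ2

lemma exists_ind {α : Ordinal.{0}} (hα : α < ω₁) : ∃ δ < ω₁, α < δ ∧ Ind δ := by
  have hclub := isClub_closure (h := fun β : Ordinal.{0} => max (β + β) (β + 1))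
    (fun β hβ => max_lt (ind_omega_one.2 β hβ β hβ) (ind_omega_one.add_one hβ))
  obtain ⟨δ, ⟨h1, h2, h3⟩, h4⟩ := hclub.2.1 α hα
  refine ⟨δ, h1, h4, ?_, fun a ha b hb => ?_⟩
  · have h5 := (max_lt_iff.1 (h3 0 h2)).2
    rwa [zero_add] at h5
  · exact lt_of_le_of_lt (add_le_add (le_max_left a b) (le_max_right a b))
      (max_lt_iff.1 (h3 _ (max_lt ha hb))).1

end Pool.Agent.DAL
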