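import Mathlib

/-!
# Definitions

Closed unbounded sets, stationary sets, Jensen's principle diamond; Aronszajn lines, minimal lines,
Countryman lines.
-/

set_option autoImplicit false

namespace Pool.Agent.DAL

open Ordinal

/-- closed unbounded subsets of `ω₁` -/
def IsClub (C : Set Ordinal.{0}) : Prop :=
  C ⊆ Set.Iio ω₁ ∧ (∀ α < ω₁, ∃ β ∈ C, α < β) ∧
  ∀ δ < ω₁, 0 < δ → (∀ α < δ, ∃ β ∈ C, α < β ∧ β < δ) → δ ∈ C

/-- stationary subsets of `ω₁` -/
def IsStationary (S : Set Ordinal.{0}) : Prop := ∀ C, IsClub C → (S ∩ C).Nonempty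

/-- Jensen's principle diamond -/
def Diamond : Prop :=
  ∃ A : Ordinal.{0} → Set Ordinal.{0}, (∀ α < ω₁, A α ⊆ Set.Iio α) ∧
    ∀ X ⊆ Set.Iio ω₁, IsStationary {α | α < ω₁ ∧ X ∩ Set.Iio α = A α}

/-- The parametrized diamond principle for the ideal of meager sets (Moore, Hrušák, Džamonja,
`♢(non(M))`): for Borel sets `M δ` of pairs of a function from `δ` to `{0, 1}` and a real number
(an element of `ℕ → ℕ`), `δ < ω₁`, whose sections are comeager, there is a sequence of real numbers
`g δ`, `δ < ω₁`, such that for every `f : ω₁ → {0, 1}` the pair of the restriction of `f` to `δ` and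
`g δ` is in `M δ` for stationary many `δ`. -/
def DiamondNonM : Prop :=
  ∀ M : (δ : Ordinal.{0}) → Set ((Set.Iio δ → Bool) × (ℕ → ℕ)),
    (∀ δ < ω₁, MeasurableSet (M δ)) →
    (∀ δ < ω₁, ∀ x, {r | (x, r) ∈ M δ} ∈ residual (ℕ → ℕ)) →
    ∃ g : Ordinal.{0} → ℕ → ℕ, ∀ f : Ordinal.{0} → Bool,
      IsStationary {δ | δ < ω₁ ∧ ((fun i : Set.Iio δ => f i.1), g δ) ∈ M δ}

/-- an Aronszajn line: uncountable, and there is no order embedding of `ω₁`, of its reverse, or of an
uncountable set of real numbers -/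
def IsAronszajnLine (L : Type) [LinearOrder L] : Prop :=
  Uncountable L ∧ (¬ ∃ f : (ω₁ : Ordinal.{0}).ToType → L, StrictMono f) ∧
  (¬ ∃ f : (ω₁ : Ordinal.{0}).ToType → L, StrictAnti f) ∧
  ∀ X : Set ℝ, ¬ X.Countable → ¬ ∃ f : X → L, StrictMono f

/-- an uncountable linear order which embeds into all its uncountable suborders -/
def IsMinimalLine (L : Type) [LinearOrder L] : Prop :=
  Uncountable L ∧ ∀ X : Set L, ¬ X.Countable → ∃ f : L → X, StrictMono f

/-- an uncountable linear order whose square is a union of countably many chains -/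
def IsCountryman (C : Type) [LinearOrder C] : Prop :=
  Uncountable C ∧ ∃ K : ℕ → Set (C × C), (∀ p, ∃ n, p ∈ K n) ∧ ∀ n, IsChain (· ≤ ·) (K n)

end Pool.Agent.DAL
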