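import Pool.Agent.DAL.Gen

/-!
# The lexicographic order
-/

set_option autoImplicit false

namespace Pool.Agent.DAL

open Ordinal Sq

/-- the lexicographic order -/
def Lt (s t : Sq) : Prop := ∃ i, (∀ j < i, s.val j = t.val j) ∧ s.val i < t.val i

/-- the element `(2 t) ⌢ 1` of the line -/
noncomputable def tm (t : Sq) : Sq := (2 : ℤ) • t * dg 1

lemma Lt_irrefl (s : Sq) : ¬ Lt s s := fun ⟨_, _, h⟩ => lt_irrefl _ h

lemma Lt_trans {s t u : Sq} (h1 : Lt s t) (h2 : Lt t u) : Lt s u := by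
  obtain ⟨i, hi, hi'⟩ := h1
  obtain ⟨j, hj, hj'⟩ := h2
  rcases lt_trichotomy i j with h | h | h
  · exact ⟨i, fun k hk => (hi k hk).trans (hj k (hk.trans h)), by rw [← hj i h]; exact hi'⟩
  · subst h
    exact ⟨i, fun k hk => (hi k hk).trans (hj k hk), hi'.trans hj'⟩
  · exact ⟨j, fun k hk => (hi k (hk.trans h)).trans (hj k hk), by rw [hi j h]; exact hj'⟩

lemma Lt_asymm {s t : Sq} (h1 : Lt s t) : ¬ Lt t s := fun h2 => Lt_irrefl s (Lt_trans h1 h2)

lemma exists_first {s t : Sq} {i : Ordinal.{0}} (h : s.val i ≠ t.val i) :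
    ∃ k ≤ i, (∀ j < k, s.val j = t.val j) ∧ s.val k ≠ t.val k := by
  have hne : {k | s.val k ≠ t.val k}.Nonempty := ⟨i, h⟩
  refine ⟨sInf {k | s.val k ≠ t.val k}, csInf_le' h, fun j hj => ?_, csInf_mem hne⟩
  by_contra hcon
  exact absurd hj (not_lt.2 (csInf_le' hcon))

lemma Lt_or {s t : Sq} {i : Ordinal.{0}} (h : s.val i ≠ t.val i) : Lt s t ∨ Lt t s := by
  obtain ⟨k, -, hk, hk'⟩ := exists_first h
  rcases lt_or_gt_of_ne hk' with h1 | h1
  · exact Or.inl ⟨k, hk, h1⟩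
  · exact Or.inr ⟨k, fun j hj => (hk j hj).symm, h1⟩

lemma Lt_congr {x x' y : Sq} {i : Ordinal.{0}} (hi : y.val i ≠ x.val i)
    (hx : ∀ j ≤ i, x.val j = x'.val j) : Lt y x ↔ Lt y x' := by
  obtain ⟨k, hki, hk, hk'⟩ := exists_first hi
  have h1 : ∀ x, (∀ j < k, y.val j = x.val j) → y.val k ≠ x.val k →
      (Lt y x ↔ y.val k < x.val k) := by
    intro x hx hx'
    constructor
    · rintro ⟨j, hj, hj'⟩
      rcases lt_trichotomy j k with h | h | h
      · exact absurd (hx j h) hj'.ne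
      · rw [← h]
        exact hj'
      · exact absurd (hj k h) hx'
    · exact fun h => ⟨k, hx, h⟩
  rw [h1 x hk hk', h1 x' (fun j hj => (hk j hj).trans (hx j (hj.le.trans hki)))
    (by rw [← hx k hki]; exact hk'), hx k hki]

lemma len_tm (t : Sq) : (tm t).len = t.len + 1 := rfl

lemma val_tm_lt (t : Sq) {i : Ordinal.{0}} (hi : i < t.len) : (tm t).val i = 2 * t.val i :=
  val_mul_left _ _ hi

lemma val_tm_len (t : Sq) : (tm t).val t.len = 1 := by
  have h1 := val_mul_right ((2 : ℤ) • t) (dg 1) 0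
  rw [add_zero, val_dg] at h1
  exact h1

lemma val_tm_gt (t : Sq) {i : Ordinal.{0}} (hi : t.len < i) : (tm t).val i = 0 :=
  (tm t).out i (by rw [len_tm]; exact Order.add_one_le_of_lt hi)

lemma tm_ne {t b : Sq} (hb : Even (b.val t.len)) : (tm t).val t.len ≠ b.val t.len := by
  rw [val_tm_len]
  intro h
  rw [← h] at hb
  exact absurd hb (by decide)

lemma tm_inj {s t : Sq} (h : ∀ i, (tm s).val i = (tm t).val i) : s = t := by
  have h1 : ∀ s t : Sq, (∀ i, (tm s).val i = (tm t).val i) → ¬ s.len < t.len := by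
    intro s t h hl
    have h2 := h s.len
    rw [val_tm_len, val_tm_lt _ hl] at h2
    omega
  have h2 : s.len = t.len := le_antisymm (not_lt.1 (h1 t s fun i => (h i).symm))
    (not_lt.1 (h1 s t h))
  refine ext' h2 fun i hi => ?_
  have h3 := h i
  rw [val_tm_lt _ hi, val_tm_lt _ (by rw [← h2]; exact hi)] at h3
  omega

lemma tm_total {s t : Sq} (h : s ≠ t) : Lt (tm s) (tm t) ∨ Lt (tm t) (tm s) := by
  have h1 : ∃ i, (tm s).val i ≠ (tm t).val i := by
    by_contra hcon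
    push Not at hcon
    exact h (tm_inj hcon)
  obtain ⟨i, hi⟩ := h1
  exact Lt_or hi

end Pool.Agent.DAL
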