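import Pool.Agent.DAL.Cl
import Pool.Agent.DAL.Lex

/-!
# The lines of the trees
-/

set_option autoImplicit false

namespace Pool.Agent.DAL

open Ordinal Sq

/-- `L` is the line of the tree `T` -/
structure Rep (L : Type) [LinearOrder L] (T : Submonoid Sq) where
  φ : L → Sq
  mem : ∀ x, φ x ∈ T
  surj : ∀ s ∈ T, ∃ x, φ x = s
  lt : ∀ x y, x < y ↔ Lt (tm (φ x)) (tm (φ y))

/-- every uncountable subtree contains a copy of the tree -/
def SubP (T : Submonoid Sq) : Prop :=
  ∀ S : Set Sq, (∀ s ∈ S, s ∈ T) → (∀ s ∈ S, ∀ γ, s.res γ ∈ S) → ¬ S.Countable →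
    ∃ s ∈ T, ∃ z : ℤ, z ≠ 0 ∧ ∀ t ∈ T, s * z • t ∈ S

lemma tm_mem {T : Submonoid Sq} (hT : TP ω₁ T) {s : Sq} (hs : s ∈ T) : tm s ∈ T :=
  mul_mem (hT.smul 2 two_ne_zero s hs) (hT.dg 1)

lemma tm_lt_le {s t : Sq} {i : Ordinal.{0}} (hi : ∀ j < i, (tm s).val j = (tm t).val j)
    (hi' : (tm s).val i ≠ (tm t).val i) : i ≤ s.len ∧ i ≤ t.len := by
  have h1 : ∀ s t : Sq, (∀ j < i, (tm s).val j = (tm t).val j) →
      (tm s).val i ≠ (tm t).val i → i ≤ s.len := by
    intro s t hi hi'
    by_contra hcon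
    have h2 := not_le.1 hcon
    have h3 := hi _ h2
    rw [val_tm_len] at h3
    rcases lt_trichotomy s.len t.len with h | h | h
    · rw [val_tm_lt _ h] at h3
      omega
    · apply hi'
      rw [val_tm_gt _ h2, val_tm_gt _ (by rw [← h]; exact h2)]
    · rw [val_tm_gt _ h] at h3
      exact one_ne_zero h3
  exact ⟨h1 s t hi hi', h1 t s (fun j hj => (hi j hj).symm) hi'.symm⟩

lemma countable_of_range {α β : Type*} {f : α → β} (hf : Function.Injective f)
    (h : (Set.range f).Countable) : Countable α := by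
  have := h.to_subtype
  exact (Set.rangeFactorization_injective.2 hf).countable

section rep

variable {L : Type} [LinearOrder L] {T : Submonoid Sq} (R : Rep L T)

include R

lemma Rep.inj {x y : L} (h : R.φ x = R.φ y) : x = y := by
  rcases lt_trichotomy x y with h1 | h1 | h1
  · rw [R.lt, h] at h1
    exact absurd h1 (Lt_irrefl _)
  · exact h1
  · rw [R.lt, h] at h1
    exact absurd h1 (Lt_irrefl _)

lemma Rep.uncountable (hT : TP ω₁ T) : Uncountable L := by
  rw [← not_countable_iff]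
  intro hc
  have h1 : (T : Set Sq).Countable := by
    refine (Set.countable_range R.φ).mono fun s hs => ?_
    obtain ⟨x, hx⟩ := R.surj s hs
    exact ⟨x, hx⟩
  obtain ⟨γ, hγ, hγ'⟩ := exists_bound (h1.image Sq.len) (by
    rintro _ ⟨s, hs, rfl⟩
    exact hT.len s hs)
  obtain ⟨s, hs, hs'⟩ := hT.all γ hγ
  exact absurd hs' (hγ' _ ⟨s, hs, rfl⟩).ne

theorem Rep.minimal (hT : TP ω₁ T) (hK : SubP T) : IsMinimalLine L := by
  refine ⟨R.uncountable hT, fun X hX => ?_⟩
  obtain ⟨s, hs, z, hz, hst⟩ : ∃ s ∈ T, ∃ z : ℤ, z ≠ 0 ∧ ∀ t ∈ T, ∃ x ∈ X, ∃ γ,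
      s * z • t = (tm (R.φ x)).res γ := by
    refine hK {s | ∃ x ∈ X, ∃ γ, s = (tm (R.φ x)).res γ} ?_ ?_ ?_
    · rintro _ ⟨x, -, γ, rfl⟩
      exact hT.res _ _ (tm_mem hT (R.mem x))
    · rintro _ ⟨x, hx, γ, rfl⟩ γ'
      exact ⟨x, hx, min γ γ', res_res _ _ _⟩
    · intro hc
      apply hX
      refine Set.MapsTo.countable_of_injOn (f := fun x => tm (R.φ x)) ?_ ?_ hc
      · exact fun x hx => ⟨x, hx, (tm (R.φ x)).len, (res_of_le _ le_rfl).symm⟩
      · intro x _ y _ e
        exact R.inj (tm_inj fun i => congrArg (fun u : Sq => u.val i) e)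
  obtain ⟨w, hw, hwt⟩ : ∃ w : ℤ, 0 < w ∧ ∀ t ∈ T, ∃ x ∈ X, ∃ γ, s * w • t =
      (tm (R.φ x)).res γ := by
    rcases lt_or_gt_of_ne hz with h | h
    · refine ⟨-z, neg_pos.2 h, fun t ht => ?_⟩
      have h1 := hst ((-1 : ℤ) • t) (hT.smul _ (by decide) t ht)
      rw [smul_smul', mul_neg, mul_one] at h1
      exact h1
    · exact ⟨z, h, hst⟩
  have h2 : ∀ y : L, ∃ x ∈ X, ∃ γ, s * w • tm (R.φ y) = (tm (R.φ x)).res γ := fun y =>
    hwt _ (tm_mem hT (R.mem y))
  choose f hf γ hγ using h2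
  have hval : ∀ y i, i ≤ (R.φ y).len →
      (tm (R.φ (f y))).val (s.len + i) = w * (tm (R.φ y)).val i := by
    intro y i hi
    have h3 : (s * w • tm (R.φ y)).val (s.len + i) = w * (tm (R.φ y)).val i := by
      rw [val_mul_right, val_smul]
    rw [← h3, hγ]
    symm
    apply val_res
    have h4 : (s * w • tm (R.φ y)).len = min (tm (R.φ (f y))).len (γ y) := by
      rw [hγ, len_res]
    refine lt_of_lt_of_le ?_ (min_le_right (tm (R.φ (f y))).len (γ y))
    rw [← h4, len_mul, len_smul, len_tm, add_lt_add_iff_left]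
    exact Order.lt_add_one_iff.2 hi
  have hval' : ∀ y i, i < s.len → (tm (R.φ (f y))).val i = s.val i := by
    intro y i hi
    have h3 : (s * w • tm (R.φ y)).val i = s.val i := val_mul_left _ _ hi
    rw [← h3, hγ]
    symm
    apply val_res
    have h4 : (s * w • tm (R.φ y)).len = min (tm (R.φ (f y))).len (γ y) := by
      rw [hγ, len_res]
    refine lt_of_lt_of_le ?_ (min_le_right (tm (R.φ (f y))).len (γ y))
    rw [← h4, len_mul]
    exact hi.trans_le le_self_add
  refine ⟨fun y => ⟨f y, hf y⟩, fun y y' hyy => ?_⟩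
  show f y < f y'
  rw [R.lt] at hyy ⊢
  obtain ⟨i, hi, hi'⟩ := hyy
  obtain ⟨h3, h4⟩ := tm_lt_le hi hi'.ne
  refine ⟨s.len + i, fun j hj => ?_, ?_⟩
  · rcases cases_add s.len j with h5 | ⟨k, rfl⟩
    · rw [hval' _ _ h5, hval' _ _ h5]
    · have h6 := (add_lt_add_iff_left _).1 hj
      rw [hval _ _ (h6.le.trans h3), hval _ _ (h6.le.trans h4), hi k h6]
  · rw [hval _ _ h3, hval _ _ h4]
    exact mul_lt_mul_of_pos_left hi' hw

/-- the line embeds in its reverse -/
theorem Rep.anti (hT : TP ω₁ T) : ∃ f : L → L, StrictAnti f := by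
  have h1 : ∀ x : L, ∃ y : L, R.φ y = (-1 : ℤ) • tm (R.φ x) := fun x =>
    R.surj _ (hT.smul _ (by decide) _ (tm_mem hT (R.mem x)))
  choose f hf using h1
  refine ⟨f, fun x y hxy => ?_⟩
  rw [R.lt] at hxy ⊢
  obtain ⟨i, hi, hi'⟩ := hxy
  obtain ⟨h3, h4⟩ := tm_lt_le hi hi'.ne
  have hv : ∀ x j, j ≤ (R.φ x).len → (tm (R.φ (f x))).val j = -2 * (tm (R.φ x)).val j := by
    intro x j hj
    rw [hf, val_tm_lt _ (by rw [len_smul, len_tm]; exact Order.lt_add_one_iff.2 hj), val_smul]
    ring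
  refine ⟨i, fun j hj => ?_, ?_⟩
  · rw [hv _ _ (hj.le.trans h3), hv _ _ (hj.le.trans h4), hi j hj]
  · rw [hv _ _ h3, hv _ _ h4]
    omega

/-- no suborder of the line is a Countryman line -/
theorem Rep.not_countryman (hT : TP ω₁ T) (hK : SubP T) (X : Set L) : ¬ IsCountryman X := by
  rintro ⟨hX, K, hK1, hK2⟩
  obtain ⟨m, hm⟩ := (R.minimal hT hK).2 X (by
    intro h
    rw [← not_countable_iff] at hX
    exact hX h.to_subtype)
  obtain ⟨r, hr⟩ := R.anti hT
  have ha : StrictAnti fun x : X => m (r x.1) := fun x y hxy => hm (hr hxy)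
  choose n hn using fun x : X => hK1 (x, m (r x.1))
  have hinj : Function.Injective n := by
    intro x y hxy
    by_contra hne
    have h1 := hn x
    have h2 := hn y
    rw [hxy] at h1
    rcases hK2 _ h1 h2 (fun e => hne (congrArg Prod.fst e)) with h | h
    · have h3 : x < y := lt_of_le_of_ne h.1 hne
      exact absurd (ha h3) (not_lt.2 h.2)
    · have h3 : y < x := lt_of_le_of_ne h.1 (Ne.symm hne)
      exact absurd (ha h3) (not_lt.2 h.2)
  rw [← not_countable_iff] at hX
  exact hX hinj.countable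

theorem Rep.aronszajn (hT : TP ω₁ T) (hK : SubP T) : IsAronszajnLine L := by
  have hdg : ∀ k : ℤ, ∃ x, R.φ x = dg k := fun k => R.surj _ (hT.dg k)
  choose d hd using hdg
  have hdlt : ∀ k k' : ℤ, k < k' → d k < d k' := by
    intro k k' h
    rw [R.lt, hd, hd]
    have hv : ∀ k, (tm (dg k)).val 0 = 2 * k := fun k => by
      rw [val_tm_lt _ (by rw [len_dg]; exact zero_lt_one), val_dg]
    refine ⟨0, fun j hj => absurd hj (not_lt.2 zero_le), ?_⟩
    rw [hv, hv]
    omega
  have hω : ¬ Countable (ω₁ : Ordinal.{0}).ToType := by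
    rw [← Cardinal.mk_le_aleph0_iff, Cardinal.mk_toType, ← Cardinal.ord_aleph, Cardinal.card_ord]
    exact not_le.2 Cardinal.aleph0_lt_aleph_one
  have hmin := (R.minimal hT hK).2
  refine ⟨R.uncountable hT, ?_, ?_, ?_⟩
  · rintro ⟨f, hf⟩
    obtain ⟨m, hm⟩ := hmin (Set.range f) (by
      intro hc
      exact hω (countable_of_range hf.injective hc))
    choose r hr using fun x : L => (m x).2
    have hr' : StrictMono r := fun x y hxy => by
      have h1 : f (r x) < f (r y) := by
        rw [hr, hr]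
        exact hm hxy
      exact hf.lt_iff_lt.1 h1
    have hseq : ∀ n : ℕ, r (d (-((n + 1 : ℕ) : ℤ))) < r (d (-((n : ℕ) : ℤ))) := fun n =>
      hr' (hdlt _ _ (by push_cast; omega))
    exact (RelEmbedding.natGT (r := ((· < ·) : (ω₁ : Ordinal.{0}).ToType → _ → Prop))
      (fun n : ℕ => r (d (-((n : ℕ) : ℤ)))) hseq).not_wellFounded wellFounded_lt
  · rintro ⟨f, hf⟩
    obtain ⟨m, hm⟩ := hmin (Set.range f) (by
      intro hc
      exact hω (countable_of_range hf.injective hc))
    choose r hr using fun x : L => (m x).2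
    have hr' : StrictAnti r := fun x y hxy => by
      have h1 : f (r x) < f (r y) := by
        rw [hr, hr]
        exact hm hxy
      exact hf.lt_iff_gt.1 h1
    have hseq : ∀ n : ℕ, r (d ((n + 1 : ℕ) : ℤ)) < r (d ((n : ℕ) : ℤ)) := fun n =>
      hr' (hdlt _ _ (by push_cast; omega))
    exact (RelEmbedding.natGT (r := ((· < ·) : (ω₁ : Ordinal.{0}).ToType → _ → Prop))
      (fun n : ℕ => r (d ((n : ℕ) : ℤ))) hseq).not_wellFounded wellFounded_lt
  · rintro X hX ⟨f, hf⟩
    obtain ⟨m, hm⟩ := hmin (Set.range f) (by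
      intro hc
      exact hX (Set.countable_coe_iff.1 (countable_of_range hf.injective hc)))
    choose r hr using fun x : L => (m x).2
    have hr' : StrictMono fun x => (r x).1 := fun x y hxy => by
      have h1 : f (r x) < f (r y) := by
        rw [hr, hr]
        exact hm hxy
      exact hf.lt_iff_lt.1 h1
    -- disjoint intervals
    choose a ha using fun x : L => R.surj (tm (R.φ x)) (tm_mem hT (R.mem x))
    choose b hb using fun x : L => R.surj (tm (R.φ x) * dg 1)
      (mul_mem (tm_mem hT (R.mem x)) (hT.dg 1))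
    have hab : ∀ x, a x < b x := by
      intro x
      rw [R.lt, ha, hb]
      refine ⟨(tm (R.φ x)).len, fun j hj => ?_, ?_⟩
      · rw [val_tm_lt _ hj, val_tm_lt (tm (R.φ x) * dg 1) (hj.trans_le le_self_add),
          val_mul_left _ _ hj]
      · have h1 := val_mul_right (tm (R.φ x)) (dg 1) 0
        rw [add_zero, val_dg] at h1
        rw [val_tm_len, val_tm_lt _ (by rw [len_mul, len_dg]; exact lt_add_one _), h1]
        norm_num
    have hba : ∀ x y, x < y → b x < a y := by
      intro x y hxy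
      rw [R.lt] at hxy
      obtain ⟨i, hi, hi'⟩ := hxy
      obtain ⟨h3, h4⟩ := tm_lt_le hi hi'.ne
      have hx : ∀ j ≤ i, (tm (R.φ (b x))).val j = 2 * (tm (R.φ x)).val j := by
        intro j hj
        have h5 : j < (tm (R.φ x)).len := Order.lt_add_one_iff.2 (hj.trans h3)
        rw [hb, val_tm_lt _ (h5.trans_le le_self_add), val_mul_left _ _ h5]
      have hy : ∀ j ≤ i, (tm (R.φ (a y))).val j = 2 * (tm (R.φ y)).val j := by
        intro j hj
        have h5 : j < (tm (R.φ y)).len := Order.lt_add_one_iff.2 (hj.trans h4)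
        rw [ha, val_tm_lt _ h5]
      rw [R.lt]
      refine ⟨i, fun j hj => ?_, ?_⟩
      · rw [hx j hj.le, hy j hj.le, hi j hj]
      · rw [hx i le_rfl, hy i le_rfl]
        omega
    choose q hq1 hq2 using fun x => exists_rat_btwn (hr' (hab x))
    have hqm : StrictMono q := fun x y hxy => by
      have h1 : ((q x : ℚ) : ℝ) < q y := (hq2 x).trans ((hr' (hba x y hxy)).trans (hq1 y))
      exact_mod_cast h1
    have h2 := R.uncountable hT
    rw [← not_countable_iff] at h2
    exact h2 hqm.injective.countable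

end rep

end Pool.Agent.DAL
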