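import Pool.Agent.DAL.Ky
import Pool.Agent.DAL.Line

/-!
# Guessing principles and minimal Aronszajn lines

Diamond, and also the weaker parametrized diamond principle for the ideal of meager sets, implies that
there are `2 ^ ℵ₁` minimal Aronszajn lines, each of which embeds in its reverse (so no suborder is a
Countryman line), such that no uncountable suborder of one of them embeds in another one or in its
reverse.
-/

set_option autoImplicit false

namespace Pool.Agent.DAL.Final

open Pool.Agent.DAL Ordinal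

private lemma small_sq : Small.{0} {s : Sq // s.len < ω₁} := by
  have h1 : Function.Injective (fun s : {s : Sq // s.len < ω₁} =>
      ((⟨s.1.len, s.2⟩, fun i => s.1.val i.1) :
        Set.Iio (ω₁ : Ordinal.{0}) × (Set.Iio (ω₁ : Ordinal.{0}) → ℤ))) := by
    rintro ⟨s, hs⟩ ⟨t, ht⟩ h
    simp only [Prod.mk.injEq, Subtype.mk.injEq] at h
    apply Subtype.ext
    refine Sq.ext' h.1 fun i hi => ?_
    exact congrFun h.2 ⟨i, hi.trans hs⟩
  exact small_of_injective h1

private lemma exists_rep (T : Submonoid Sq) (hT : TP ω₁ T) :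
    ∃ (L : Type) (_ : LinearOrder L), Nonempty (Rep L T) := by
  have h0 := small_sq
  have h1 : Small.{0} {s : Sq // s ∈ T} := small_of_injective
    (f := fun s : {s : Sq // s ∈ T} => (⟨s.1, hT.len _ s.2⟩ : {s : Sq // s.len < ω₁}))
    (fun s t h => Subtype.ext (congrArg (fun u : {s : Sq // s.len < ω₁} => u.1) h))
  obtain ⟨e⟩ : Nonempty (Shrink.{0} {s : Sq // s ∈ T} ≃ {s : Sq // s ∈ T}) :=
    ⟨(equivShrink _).symm⟩
  have hinj : Function.Injective (fun x : Shrink.{0} {s : Sq // s ∈ T} =>
      (toLex (tm (e x).1).val : Lex (Ordinal.{0} → ℤ))) := by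
    intro x y h
    apply e.injective
    apply Subtype.ext
    apply tm_inj
    exact fun i => congrFun (toLex.injective h) i
  refine ⟨Shrink.{0} {s : Sq // s ∈ T}, LinearOrder.lift' _ hinj, ⟨?_⟩⟩
  letI := LinearOrder.lift' _ hinj
  exact
    { φ := fun x => (e x).1
      mem := fun x => (e x).2
      surj := fun s hs => ⟨e.symm ⟨s, hs⟩, by rw [e.apply_symm_apply]⟩
      lt := fun x y => Iff.rfl }

/-- Assume diamond, or only the weaker parametrized diamond principle `♢(non(M))` (it follows from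
diamond: `diamondNonM_of_diamond`).  Then there is a family of minimal Aronszajn lines `L F`, `F` a set of
countable ordinals (a family with `2 ^ ℵ₁` members), such that `L F` embeds in its reverse, no suborder of
`L F` is a Countryman line, and for `F ≠ G` no uncountable suborder of `L F` embeds in `L G` or in its
reverse. -/
theorem result (h : Diamond ∨ DiamondNonM) :
    ∃ (L : Set (Set.Iio (ω₁ : Ordinal.{0})) → Type) (_ : ∀ F, LinearOrder (L F)),
      (∀ F, IsAronszajnLine (L F) ∧ IsMinimalLine (L F)) ∧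
      (∀ F, ∃ f : L F → L F, StrictAnti f) ∧
      (∀ F, ∀ X : Set (L F), ¬ IsCountryman X) ∧
      ∀ F G, F ≠ G → ∀ X : Set (L F), ¬ X.Countable →
        (¬ ∃ f : X → L G, StrictMono f) ∧ ¬ ∃ f : X → L G, StrictAnti f := by
  have hD : DiamondNonM := h.elim diamondNonM_of_diamond id
  obtain ⟨en, hen⟩ := exists_en
  obtain ⟨e, he⟩ := exists_e
  obtain ⟨g, hg⟩ := exists_real hD hen he
  have hT : ∀ F, TP ω₁ (Gen (cF en e g F) ω₁) := fun F =>
    TP_Gen ind_omega_one (sys_good (adm_XF hen g F))
  choose L iL hL using fun F : Set (Set.Iio (ω₁ : Ordinal.{0})) => exists_rep _ (hT F)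
  have R : ∀ F, Rep (L F) (Gen (cF en e g F) ω₁) := fun F => (hL F).some
  have hK : ∀ F, SubP (Gen (cF en e g F) ω₁) := fun F S h1 h2 h3 => key_subtree hen hg F h1 h2 h3
  have hinc : ∀ F G, F ≠ G → ¬ ∃ f : L F → L G, StrictMono f := by
    rintro F G hne ⟨f, hf⟩
    obtain ⟨ξ, hξ⟩ : ∃ ξ : Set.Iio (ω₁ : Ordinal.{0}), ¬ (ξ ∈ F ↔ ξ ∈ G) := by
      by_contra hcon
      push Not at hcon
      exact hne (Set.ext hcon)
    have hne' : Nonempty (L F) := ⟨((R F).surj 1 (one_mem _)).choose⟩
    choose! p hp using (R F).surj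
    refine key_incomparable hen he hg F G hξ
      (fun t => (R G).φ (f (p t))) (fun t _ => (R G).mem _) ?_
    intro t ht t' ht' hlt
    rw [← (R G).lt]
    apply hf
    rw [(R F).lt, hp t ht, hp t' ht']
    exact hlt
  refine ⟨L, iL, fun F => ⟨(R F).aronszajn (hT _) (hK _), (R F).minimal (hT _) (hK _)⟩,
    fun F => (R F).anti (hT _), fun F => (R F).not_countryman (hT _) (hK _), ?_⟩
  intro F G hne X hX
  obtain ⟨m, hm⟩ := ((R F).minimal (hT _) (hK _)).2 X hX
  constructor
  · rintro ⟨f, hf⟩
    exact hinc F G hne ⟨fun x => f (m x), fun x y hxy => hf (hm hxy)⟩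
  · rintro ⟨f, hf⟩
    obtain ⟨r, hr⟩ := (R G).anti (hT _)
    exact hinc F G hne ⟨fun x => r (f (m x)), fun x y hxy => hr (hf (hm hxy))⟩

end Pool.Agent.DAL.Final
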