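import Pool.Agent.DAL.Par

/-!
# A sequence of real numbers which meets the coded requirements
-/

set_option autoImplicit false

namespace Pool.Agent.DAL

open Ordinal Sq

lemma Vg_mono {δ δ' : Ordinal.{0}} (h : δ ≤ δ') {x : Gw} (hx : Vg δ x) : Vg δ' x := by
  rcases x with k | ⟨ε, β, z⟩
  · trivial
  · exact ⟨hx.1, hx.2.1.trans_le h, hx.2.2⟩

lemma Vw_mono {δ δ' : Ordinal.{0}} (h : δ ≤ δ') {w : Wd} (hw : Vw δ w) : Vw δ' w :=
  fun x hx => Vg_mono h (hw x hx)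

lemma Vw_cont {δ : Ordinal.{0}} (h0 : 0 < δ) {w : Wd} (hw : Vw δ w) : ∃ β < δ, Vw (β + 1) w := by
  induction w with
  | nil => exact ⟨0, h0, Vw_nil _⟩
  | cons x w ih =>
    obtain ⟨β, hβ, hβ'⟩ := ih fun y hy => hw y (List.mem_cons_of_mem _ hy)
    have hx := hw x List.mem_cons_self
    obtain ⟨γ, hγ, hγ'⟩ : ∃ γ < δ, Vg (γ + 1) x := by
      rcases x with k | ⟨ε, η, z⟩
      · exact ⟨0, h0, trivial⟩
      · exact ⟨ε.1, hx.2.1, hx.1, lt_add_one _, hx.2.2⟩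
    refine ⟨max β γ, max_lt hβ hγ, fun y hy => ?_⟩
    have e1 : β + 1 ≤ max β γ + 1 := add_le_add_left (le_max_left _ _) 1
    have e2 : γ + 1 ≤ max β γ + 1 := add_le_add_left (le_max_right _ _) 1
    rcases List.mem_cons.1 hy with rfl | h1
    · exact Vg_mono e2 hγ'
    · exact Vg_mono e1 (hβ' y h1)

/-- the codes below `δ` -/
def Pd (δ : Ordinal.{0}) : Set Cd :=
  {p | Sum.elim (fun x : Ow => x.1 < δ) (Sum.elim (fun x : Ow => x.1 < δ)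
    (fun q : (Wd × Ow × ℤ) × Wd × Wd =>
      (Vw δ q.1.1 ∧ q.1.2.1.1 < δ) ∧ Vw δ q.2.1 ∧ Vw δ q.2.2)) p}

lemma Pd_countable {δ : Ordinal.{0}} (hδ : δ < ω₁) : (Pd δ).Countable := by
  have c1 : {x : Ow | x.1 < δ}.Countable := (countable_Iio hδ).preimage Subtype.val_injective
  have c2 := Vw_countable hδ
  refine (((c1.image Sum.inl).union ((c1.image (Sum.inr ∘ Sum.inl)).union
    (((c2.prod (c1.prod (Set.countable_univ (α := ℤ)))).prod (c2.prod c2)).image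
      (Sum.inr ∘ Sum.inr))))).mono ?_
  rintro (x | x | ⟨⟨w, β, z⟩, t, t'⟩) hx
  · exact Or.inl ⟨x, hx, rfl⟩
  · exact Or.inr (Or.inl ⟨x, hx, rfl⟩)
  · exact Or.inr (Or.inr ⟨((w, β, z), t, t'), ⟨⟨hx.1.1, hx.1.2, Set.mem_univ _⟩, hx.2.1, hx.2.2⟩,
      rfl⟩)

lemma Pd_cont {δ : Ordinal.{0}} (h0 : 0 < δ) {p : Cd} (hp : p ∈ Pd δ) :
    ∃ β < δ, p ∈ Pd (β + 1) := by
  rcases p with x | x | ⟨⟨w, η, z⟩, t, t'⟩
  · exact ⟨x.1, hp, lt_add_one x.1⟩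
  · exact ⟨x.1, hp, lt_add_one x.1⟩
  · obtain ⟨⟨h1, h2⟩, h3, h4⟩ := hp
    obtain ⟨β1, b1, b1'⟩ := Vw_cont h0 h1
    obtain ⟨β2, b2, b2'⟩ := Vw_cont h0 h3
    obtain ⟨β3, b3, b3'⟩ := Vw_cont h0 h4
    refine ⟨max η.1 (max β1 (max β2 β3)), max_lt h2 (max_lt b1 (max_lt b2 b3)), ⟨?_, ?_⟩, ?_, ?_⟩
    · exact Vw_mono (add_le_add_left ((le_max_left _ _).trans (le_max_right _ _)) 1) b1'
    · exact Order.lt_add_one_iff.2 (le_max_left _ _)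
    · exact Vw_mono (add_le_add_left ((le_max_left _ _).trans ((le_max_right _ _).trans
        (le_max_right _ _))) 1) b2'
    · exact Vw_mono (add_le_add_left ((le_max_right _ _).trans ((le_max_right _ _).trans
        (le_max_right _ _))) 1) b3'

/-- the property of the sequence of real numbers -/
def Gen2 (en : Ordinal.{0} → ℕ → Wd) (e : Ordinal.{0} → ℕ → Ow) (g : Ordinal.{0} → ℕ → ℕ) : Prop :=
  ∀ (F G : Set Ow) (Q : Set ((Wd × Ow × ℤ) × Wd × Wd)) (H : Ordinal.{0} → Ordinal.{0}),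
    (∀ β < ω₁, H β < ω₁) → ∃ δ < ω₁, Ind δ ∧ (∀ β < δ, H β < δ) ∧
      ((∀ n ∈ Nn δ, ∀ σ : List ℕ, ∃ τ : List ℕ, ∃ m, (∀ i < σ.length, zz τ i = zz σ i) ∧
        (n, xw (en δ) (ch (e δ) F) (zz τ) m, xw (en δ) (ch (e δ) G) (zz τ) m) ∈ Q) →
      ∀ n ∈ Nn δ, ∃ m, (n, XF en e g F δ m, XF en e g G δ m) ∈ Q)

theorem exists_real (hD : DiamondNonM) {en : Ordinal.{0} → ℕ → Wd} {e : Ordinal.{0} → ℕ → Ow}
    (hen : ∀ δ < ω₁, (∀ k, Vw δ (en δ k)) ∧ ∀ w, Vw δ w → ∃ k, en δ k = w)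
    (he : ∀ δ < ω₁, 0 < δ → (∀ k, (e δ k).1 < δ) ∧ ∀ x : Ow, x.1 < δ → ∃ k, e δ k = x) :
    ∃ g : Ordinal.{0} → ℕ → ℕ, Gen2 en e g := by
  classical
  obtain ⟨J, hJ⟩ := exists_J
  obtain ⟨g, hg⟩ := hD (fun δ => Ms J (en δ) (e δ) δ)
    (fun δ hδ => measurable_Ms hδ J (hen δ hδ).1 (e δ))
    (fun δ hδ x => residual_Ms hδ J (en δ) (e δ) x)
  refine ⟨g, fun F G Q H hH => ?_⟩
  obtain ⟨Y, hY⟩ : ∃ Y : Set Cd, Y = {p | Sum.elim (fun x => x ∈ F)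
    (Sum.elim (fun x => x ∈ G) (fun q => q ∈ Q)) p} := ⟨_, rfl⟩
  -- bound for the codes
  have hbd : ∀ δ, δ < ω₁ → ∃ γ < ω₁, ∀ p ∈ Pd δ, (J p).1 < γ := by
    intro δ hδ
    obtain ⟨γ, hγ, hγ'⟩ := exists_bound ((Pd_countable hδ).image fun p => (J p).1) (by
      rintro _ ⟨p, -, rfl⟩
      exact (J p).2)
    exact ⟨γ, hγ, fun p hp => hγ' _ ⟨p, hp, rfl⟩⟩
  choose! K hK hK' using hbd
  have hclub := isClub_closure (h := fun β => max (H β) (max (K (β + 1)) (max (β + β) (β + 1))))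
    (fun β hβ => max_lt (hH β hβ) (max_lt (hK _ (ind_omega_one.add_one hβ))
      (max_lt (ind_omega_one.2 β hβ β hβ) (ind_omega_one.add_one hβ))))
  obtain ⟨δ, ⟨hδ, hM⟩, -, hδ0, hcl⟩ := hg (fun i => decide (∃ p ∈ Y, (J p).1 = i)) _ hclub
  have hcl1 : ∀ β < δ, H β < δ := fun β hβ => (max_lt_iff.1 (hcl β hβ)).1
  have hcl2 : ∀ β < δ, K (β + 1) < δ := fun β hβ =>
    (max_lt_iff.1 (max_lt_iff.1 (hcl β hβ)).2).1
  have hcl3 : ∀ β < δ, β + β < δ := fun β hβ =>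
    (max_lt_iff.1 (max_lt_iff.1 (max_lt_iff.1 (hcl β hβ)).2).2).1
  have hcl4 : ∀ β < δ, β + 1 < δ := fun β hβ =>
    (max_lt_iff.1 (max_lt_iff.1 (max_lt_iff.1 (hcl β hβ)).2).2).2
  have hind : Ind δ := by
    constructor
    · have h1 := hcl4 0 hδ0
      rwa [zero_add] at h1
    · intro a ha b hb
      exact lt_of_le_of_lt (add_le_add (le_max_left a b) (le_max_right a b))
        (hcl3 _ (max_lt ha hb))
  have hJδ : ∀ p ∈ Pd δ, (J p).1 < δ := by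
    intro p hp
    obtain ⟨β, hβ, hp'⟩ := Pd_cont hδ0 hp
    exact (hK' _ (ind_omega_one.add_one (hβ.trans hδ)) p hp').trans (hcl2 β hβ)
  have hrd : ∀ p ∈ Pd δ, rd J δ p (fun i : Set.Iio δ => decide (∃ p ∈ Y, (J p).1 = i.1)) =
      decide (p ∈ Y) := by
    intro p hp
    rw [rd, dif_pos (hJδ p hp)]
    have h1 : (∃ p' ∈ Y, (J p').1 = (J p).1) ↔ p ∈ Y := by
      constructor
      · rintro ⟨p', h1, h2⟩
        have h3 : p' = p := hJ (Subtype.ext h2)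
        rw [← h3]
        exact h1
      · exact fun h => ⟨p, h, rfl⟩
    simp only [h1]
  have hF : (fun i => rd J δ (Sum.inl (e δ i))
      (fun i : Set.Iio δ => decide (∃ p ∈ Y, (J p).1 = i.1))) = ch (e δ) F := by
    funext i
    rw [hrd _ ((he δ hδ hδ0).1 i), hY]
    rfl
  have hG : (fun i => rd J δ (Sum.inr (Sum.inl (e δ i)))
      (fun i : Set.Iio δ => decide (∃ p ∈ Y, (J p).1 = i.1))) = ch (e δ) G := by
    funext i
    rw [hrd _ ((he δ hδ hδ0).1 i), hY]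
    rfl
  have hOk : ∀ n ∈ Nn δ, ∀ m h, Ok J (en δ) (e δ) δ n m
      (fun i : Set.Iio δ => decide (∃ p ∈ Y, (J p).1 = i.1)) h ↔
      (n, xw (en δ) (ch (e δ) F) h m, xw (en δ) (ch (e δ) G) h m) ∈ Q := by
    intro n hn m h
    have hp : (Sum.inr (Sum.inr (n, xw (en δ) (ch (e δ) F) h m,
        xw (en δ) (ch (e δ) G) h m)) : Cd) ∈ Pd δ :=
      ⟨⟨hn.1, hn.2.1⟩, Vw_xw (hen δ hδ).1 _ _ _, Vw_xw (hen δ hδ).1 _ _ _⟩
    rw [Ok, hF, hG, hrd _ hp, decide_eq_true_iff, hY]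
    rfl
  refine ⟨δ, hδ, hind, hcl1, fun hdense n hn => ?_⟩
  obtain ⟨m, hm⟩ := hM (fun n hn σ => by
    obtain ⟨τ, m, h1, h2⟩ := hdense n hn σ
    exact ⟨τ, m, h1, (hOk n hn m _).2 h2⟩) n hn
  exact ⟨m, (hOk n hn m _).1 hm⟩

end Pool.Agent.DAL
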