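import Pool.Agent.DAL.Gs

/-!
# Subtrees of the trees, and maps between the lines
-/

set_option autoImplicit false

namespace Pool.Agent.DAL

open Ordinal Sq

lemma zz_map {h : ℕ → ℕ} {L : ℕ} (hL : ∀ i, L ≤ i → h i = 0) :
    zz ((List.range L).map h) = h := by
  funext i
  rw [zz, List.getD_eq_getElem?_getD]
  by_cases hi : i < L
  · simp [hi]
  · rw [hL i (not_lt.1 hi)]
    simp [hi]

lemma zz_zero {σ : List ℕ} {i : ℕ} (hi : σ.length ≤ i) : zz σ i = 0 := by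
  rw [zz, List.getD_eq_getElem?_getD, List.getElem?_eq_none hi, Option.getD_none]

lemma enc_inj (a a' : ℕ → Bool) {m m' : ℕ} (h : m ≠ m') :
    Encodable.encode (bs a m) ≠ Encodable.encode (bs a' m') := by
  intro e
  apply h
  have h1 := congrArg List.length (Encodable.encode_injective e)
  rwa [length_bs, length_bs] at h1

lemma exists_ext (en : ℕ → Wd) {a a' : ℕ → Bool} {i₀ : ℕ} (hne : a i₀ ≠ a' i₀) (σ : List ℕ) :
    ∃ m, ∀ k k', ∃ τ : List ℕ, (∀ i < σ.length, zz τ i = zz σ i) ∧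
      xw en a (zz τ) (m + 1) = xw en a (zz σ) m ++ en k ++ en m ∧
      xw en a' (zz τ) (m + 1) = xw en a' (zz σ) m ++ en k' ++ en m := by
  have hinj : ∀ a : ℕ → Bool, Function.Injective fun m => Encodable.encode (bs a m) := by
    intro a m m' h
    by_contra hcon
    exact enc_inj a a hcon h
  have h1 := Filter.tendsto_atTop.1 (hinj a).nat_tendsto_atTop σ.length
  have h2 := Filter.tendsto_atTop.1 (hinj a').nat_tendsto_atTop σ.length
  obtain ⟨m, h3, h4, h5⟩ := (h1.and (h2.and (Filter.eventually_gt_atTop i₀))).exists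
  refine ⟨m, fun k k' => ?_⟩
  obtain ⟨h, hh⟩ : ∃ h : ℕ → ℕ, h = Function.update (Function.update (zz σ)
    (Encodable.encode (bs a m)) k) (Encodable.encode (bs a' m)) k' := ⟨_, rfl⟩
  have hneq : Encodable.encode (bs a m) ≠ Encodable.encode (bs a' m) := fun e =>
    bs_ne h5 hne (Encodable.encode_injective e)
  have hv1 : h (Encodable.encode (bs a m)) = k := by
    rw [hh, Function.update_of_ne hneq, Function.update_self]
  have hv2 : h (Encodable.encode (bs a' m)) = k' := by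
    rw [hh, Function.update_self]
  have hv3 : ∀ i, i ≠ Encodable.encode (bs a m) → i ≠ Encodable.encode (bs a' m) →
      h i = zz σ i := fun i hi hi' => by
    rw [hh, Function.update_of_ne hi', Function.update_of_ne hi]
  have hz : zz ((List.range (max σ.length (max (Encodable.encode (bs a m) + 1)
      (Encodable.encode (bs a' m) + 1)))).map h) = h := by
    apply zz_map
    intro i hi
    rw [max_le_iff, max_le_iff] at hi
    rw [hv3 i (by omega) (by omega), zz_zero hi.1]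
  refine ⟨(List.range (max σ.length (max (Encodable.encode (bs a m) + 1)
      (Encodable.encode (bs a' m) + 1)))).map h, ?_, ?_, ?_⟩
  · intro i hi
    rw [hz, hv3 i (by omega) (by omega)]
  · rw [hz, xw, hv1, xw_congr en (fun _ _ => rfl) (h' := zz σ)]
    intro i hi
    exact hv3 _ (enc_inj a a hi.ne) (enc_inj a a' hi.ne)
  · rw [hz, xw, hv2, xw_congr en (fun _ _ => rfl) (h' := zz σ)]
    intro i hi
    exact hv3 _ (enc_inj a' a hi.ne) (enc_inj a' a' hi.ne)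

lemma res_op {β γ : Ordinal.{0}} {s b : Sq} (z : ℤ) (h : β ≤ γ) :
    (s * z • tl β b).res (s.len + (γ - β)) = s * z • tl β (b.res γ) := by
  rw [res_mul_ge, res_smul, res_tl, Ordinal.add_sub_cancel_of_le h]

lemma Gen_countable_lt {c : Ordinal.{0} → Sq} (hg : Good c ω₁) {δ : Ordinal.{0}} (hδ : δ < ω₁) :
    {s | s ∈ Gen c ω₁ ∧ s.len < δ}.Countable := by
  obtain ⟨δ', h1, h2, h3⟩ := exists_ind hδ
  exact (Gen_countable (c := c) h1).mono fun s hs => Gen_lt hg hs.1 (hs.2.trans h2)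

variable {en : Ordinal.{0} → ℕ → Wd} {e : Ordinal.{0} → ℕ → Ow} {g : Ordinal.{0} → ℕ → ℕ}

/-- the branches of the tree of `F` -/
noncomputable def cF (en : Ordinal.{0} → ℕ → Wd) (e : Ordinal.{0} → ℕ → Ow)
    (g : Ordinal.{0} → ℕ → ℕ) (F : Set Ow) : Ordinal.{0} → Sq := sys (XF en e g F)

/-- every uncountable subtree contains a copy of the tree -/
theorem key_subtree
    (hen : ∀ δ < ω₁, (∀ k, Vw δ (en δ k)) ∧ ∀ w, Vw δ w → ∃ k, en δ k = w)
    (hg : Gen2 en e g) (F : Set Ow) {S : Set Sq} (hS : ∀ s ∈ S, s ∈ Gen (cF en e g F) ω₁)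
    (hdc : ∀ s ∈ S, ∀ γ, s.res γ ∈ S) (hunc : ¬ S.Countable) :
    ∃ s ∈ Gen (cF en e g F) ω₁, ∃ z : ℤ, z ≠ 0 ∧ ∀ t ∈ Gen (cF en e g F) ω₁, s * z • t ∈ S := by
  by_contra hcon
  push Not at hcon
  choose! t htT htS using hcon
  have hadm := adm_XF (e := e) hen g F
  have hgood : Good (cF en e g F) ω₁ := sys_good hadm
  obtain ⟨c, hc⟩ : ∃ c, c = cF en e g F := ⟨_, rfl⟩
  rw [← hc] at hgood hS htT htS
  have hT : TP ω₁ (Gen c ω₁) := TP_Gen ind_omega_one hgood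
  -- bound for the witnesses
  have hbd : ∀ β, β < ω₁ → ∃ γ < ω₁, ∀ s ∈ Gen c ω₁, s.len ≤ β → ∀ z : ℤ, z ≠ 0 →
      (t s z).len < γ := by
    intro β hβ
    have hcc : ((fun p : Sq × ℤ => (t p.1 p.2).len) ''
        ({s | s ∈ Gen c ω₁ ∧ s.len < β + 1} ×ˢ {z : ℤ | z ≠ 0})).Countable :=
      ((Gen_countable_lt hgood (ind_omega_one.add_one hβ)).prod (Set.to_countable _)).image _
    obtain ⟨γ, hγ, hγ'⟩ := exists_bound hcc (by
      rintro _ ⟨⟨s, z⟩, ⟨hs, hz⟩, rfl⟩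
      exact hT.len _ (htT s hs.1 z hz))
    exact ⟨γ, hγ, fun s hs hl z hz => hγ' _ ⟨(s, z), ⟨⟨hs, Order.lt_add_one_iff.2 hl⟩, hz⟩, rfl⟩⟩
  choose! H hH hH' using hbd
  obtain ⟨δ, hδ, hi, hcl, hreq⟩ := hg F F {p | p.1.2.1.1 ≤ (ev c p.2.1).len ∧
    ev c p.1.1 * p.1.2.2 • tl p.1.2.1.1 (ev c p.2.1) ∉ S} H hH
  have hgδ : Good c δ := hgood.mono hδ.le
  have hTδ : TP δ (Gen c δ) := TP_Gen hi hgδ
  have hspec := sys_spec hadm δ hδ hi
  have hmeet := hreq (by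
    rintro ⟨ws, β, z⟩ ⟨hws, hβ, hz⟩ σ
    simp only at hws hβ hz
    obtain ⟨m, hm⟩ := exists_ext (en δ) (a := ch (e δ) F) (a' := fun i => !(ch (e δ) F i))
      (i₀ := 0) (by simp) σ
    obtain ⟨u₀, hu₀, hu₀'⟩ := exists_wlen hδ.le β.1 hβ
    have hxV : Vw δ (xw (en δ) (ch (e δ) F) (zz σ) m) := Vw_xw (hen δ hδ).1 _ _ _
    have htV : Vw δ (xw (en δ) (ch (e δ) F) (zz σ) m ++ u₀) := Vw_append hxV hu₀
    obtain ⟨y, hy⟩ : ∃ y, y = ev c ws * z • tl β.1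
      (ev c (xw (en δ) (ch (e δ) F) (zz σ) m ++ u₀)) := ⟨_, rfl⟩
    have hyδ : y ∈ Gen c δ := by
      rw [hy]
      exact mul_mem (ev_mem hws) (hTδ.smul z hz _ (hTδ.tl _ _ (ev_mem htV)))
    have hyT : y ∈ Gen c ω₁ := Gen_mono c hδ.le hyδ
    have hl : (t y z).len < δ :=
      (hH' _ ((hTδ.len y hyδ).trans hδ) y hyT le_rfl z hz).trans (hcl _ (hTδ.len y hyδ))
    obtain ⟨u₁, hu₁, hu₁'⟩ := mem_ev hδ.le (Gen_lt hgood (htT y hyT z hz) hl)
    obtain ⟨k, hk⟩ := (hen δ hδ).2 (u₀ ++ u₁) (Vw_append hu₀ hu₁)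
    obtain ⟨τ, hτ, hτ', -⟩ := hm k k
    have hβl : β.1 ≤ (ev c (xw (en δ) (ch (e δ) F) (zz σ) m ++ u₀)).len := by
      rw [len_ev hgδ htV, wlen_append, hu₀']
      exact le_add_self
    have hE : ev c (xw (en δ) (ch (e δ) F) (zz τ) (m + 1)) =
        ev c (xw (en δ) (ch (e δ) F) (zz σ) m ++ u₀) * (t y z) * ev c (en δ m) := by
      rw [hτ', hk, ev_append, ← List.append_assoc, ev_append, hu₁']
    refine ⟨τ, m + 1, hτ, ?_, ?_⟩
    · show β.1 ≤ (ev c (xw (en δ) (ch (e δ) F) (zz τ) (m + 1))).len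
      rw [hE, len_mul, len_mul]
      exact hβl.trans (le_self_add.trans le_self_add)
    · show ev c ws * z • tl β.1 (ev c (xw (en δ) (ch (e δ) F) (zz τ) (m + 1))) ∉ S
      rw [hE, mul_assoc, tl_mul_le _ _ hβl, smul_mul', smul_mul', ← mul_assoc, ← mul_assoc, ← hy]
      intro hmem
      have h1 := hdc _ hmem (y * z • t y z).len
      rw [res_mul_self] at h1
      exact htS y hyT z hz h1)
  have hno : ∀ x ∈ S, x.len ≠ δ := by
    intro x hx hxl
    rcases Gen_str hi hδ hgood (hS x hx) hxl.le with h1 | ⟨s, hs, β, hβ, z, hz, ex⟩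
    · exact absurd hxl h1.ne
    · obtain ⟨ws, hws, hws'⟩ := mem_ev hδ.le hs
      obtain ⟨m, hm1, hm2⟩ := hmeet (ws, ⟨β, hβ.trans hδ⟩, z) ⟨hws, hβ, hz⟩
      have h1 : (c δ).res (ev c (XF en e g F δ m)).len = ev c (XF en e g F δ m) := by
        rw [hc]
        exact hspec.2 m
      simp only at hm1 hm2
      apply hm2
      rw [hws', ← h1, ← res_op z hm1, ← ex]
      exact hdc x hx _
  apply hunc
  refine (Gen_countable_lt hgood hδ).mono fun x hx => ?_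
  refine (⟨hS x hx, ?_⟩ : x ∈ Gen c ω₁ ∧ x.len < δ)
  by_contra hcon
  exact hno _ (hdc x hx δ) (len_res_of_le _ (not_lt.1 hcon))

/-- `s` is below `t`, with the first difference below `γ` -/
def LtB (γ : Ordinal.{0}) (s t : Sq) : Prop :=
  ∃ i < γ, (∀ j < i, s.val j = t.val j) ∧ s.val i < t.val i

lemma LtB.lt {γ : Ordinal.{0}} {s t : Sq} (h : LtB γ s t) : Lt s t := by
  obtain ⟨i, -, h1, h2⟩ := h
  exact ⟨i, h1, h2⟩

lemma LtB.congr {γ γ' : Ordinal.{0}} {s t s' t' : Sq} (h : LtB γ s t) (hγ : γ ≤ γ')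
    (hs : ∀ j < γ, s.val j = s'.val j) (ht : ∀ j < γ, t.val j = t'.val j) : LtB γ' s' t' := by
  obtain ⟨i, hi, h1, h2⟩ := h
  refine ⟨i, hi.trans_le hγ, fun j hj => ?_, ?_⟩
  · rw [← hs j (hj.trans hi), ← ht j (hj.trans hi), h1 j hj]
  · rw [← hs i hi, ← ht i hi]
    exact h2

/-- the requirements for two trees and a map of the lines -/
def Qi (c c' : Ordinal.{0} → Sq) (T : Submonoid Sq) (f : Sq → Sq) :
    Set ((Wd × Ow × ℤ) × Wd × Wd) :=
  {p | p.1.2.1.1 ≤ (ev c' p.2.2).len ∧ ∃ y ∈ T,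
    (LtB (ev c p.2.1).len (tm y) ((2 : ℤ) • ev c p.2.1) ∧
      LtB (ev c' p.1.1 * p.1.2.2 • tl p.1.2.1.1 (ev c' p.2.2)).len
        (ev c' p.1.1 * p.1.2.2 • tl p.1.2.1.1 (ev c' p.2.2)) (tm (f y))) ∨
    (LtB (ev c p.2.1).len ((2 : ℤ) • ev c p.2.1) (tm y) ∧
      LtB (ev c' p.1.1 * p.1.2.2 • tl p.1.2.1.1 (ev c' p.2.2)).len (tm (f y))
        (ev c' p.1.1 * p.1.2.2 • tl p.1.2.1.1 (ev c' p.2.2)))}

/-- the requirements are preserved by extensions -/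
lemma Qi_ext {c c' : Ordinal.{0} → Sq} {T : Submonoid Sq} {f : Sq → Sq} {n : Wd × Ow × ℤ}
    {t t' u u' : Wd} (h : (n, t, t') ∈ Qi c c' T f) : (n, t ++ u, t' ++ u') ∈ Qi c c' T f := by
  obtain ⟨h1, y, hy, h2⟩ := h
  simp only at h1 h2
  have e1 : (ev c t).len ≤ (ev c (t ++ u)).len := by
    rw [ev_append, len_mul]
    exact le_self_add
  have e2 : ∀ j < (ev c t).len, ((2 : ℤ) • ev c t).val j = ((2 : ℤ) • ev c (t ++ u)).val j := by
    intro j hj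
    rw [ev_append, val_smul, val_smul, val_mul_left _ _ hj]
  have e3 : ev c' n.1 * n.2.2 • tl n.2.1.1 (ev c' (t' ++ u')) =
      (ev c' n.1 * n.2.2 • tl n.2.1.1 (ev c' t')) * n.2.2 • ev c' u' := by
    rw [ev_append, tl_mul_le _ _ h1, smul_mul', mul_assoc]
  have e4 : (ev c' n.1 * n.2.2 • tl n.2.1.1 (ev c' t')).len ≤
      (ev c' n.1 * n.2.2 • tl n.2.1.1 (ev c' (t' ++ u'))).len := by
    rw [e3, len_mul _ (n.2.2 • ev c' u')]
    exact le_self_add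
  have e5 : ∀ j < (ev c' n.1 * n.2.2 • tl n.2.1.1 (ev c' t')).len,
      (ev c' n.1 * n.2.2 • tl n.2.1.1 (ev c' t')).val j =
      (ev c' n.1 * n.2.2 • tl n.2.1.1 (ev c' (t' ++ u'))).val j := by
    intro j hj
    rw [e3, val_mul_left _ _ hj]
  refine ⟨?_, y, hy, ?_⟩
  · show n.2.1.1 ≤ (ev c' (t' ++ u')).len
    rw [ev_append, len_mul]
    exact h1.trans le_self_add
  · rcases h2 with ⟨k1, k2⟩ | ⟨k1, k2⟩
    · exact Or.inl ⟨k1.congr e1 (fun _ _ => rfl) e2, k2.congr e4 e5 fun _ _ => rfl⟩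
    · exact Or.inr ⟨k1.congr e1 e2 (fun _ _ => rfl), k2.congr e4 (fun _ _ => rfl) e5⟩

lemma val_mul_dg (s : Sq) (k : ℤ) : (s * dg k).val s.len = k := by
  have h1 := val_mul_right s (dg k) 0
  rwa [add_zero, val_dg] at h1

/-- the requirements are dense -/
lemma Qi_dense {c c' : Ordinal.{0} → Sq} {T : Submonoid Sq} (hT : TP ω₁ T) (f : Sq → Sq)
    {n : Wd × Ow × ℤ} (hz : n.2.2 ≠ 0) {t t' : Wd} (ht : ev c t ∈ T)
    (hβ : n.2.1.1 ≤ (ev c' t').len) :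
    ∃ k k' : ℤ, (n, t ++ [Sum.inl k], t' ++ [Sum.inl k']) ∈ Qi c c' T f := by
  obtain ⟨P, hP⟩ : ∃ P, P = ev c' n.1 * n.2.2 • tl n.2.1.1 (ev c' t') := ⟨_, rfl⟩
  have hO : ∀ k, ev c' n.1 * n.2.2 • tl n.2.1.1 (ev c' (t' ++ [Sum.inl k])) =
      P * dg (n.2.2 * k) := by
    intro k
    rw [ev_append, tl_mul_le _ _ hβ, smul_mul', ← mul_assoc, ← hP, ev_single]
    congr 1
    exact smul_dg _ _
  have hOl : ∀ k, P.len < (P * dg k).len := fun k => lt_add_one _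
  obtain ⟨y, hy⟩ : ∃ y, y = ev c t * dg 1 := ⟨_, rfl⟩
  have hyT : y ∈ T := by
    rw [hy]
    exact mul_mem ht (hT.dg 1)
  have hyl : (ev c t).len < y.len := by
    rw [hy]
    exact lt_add_one _
  have hyv : ∀ j < (ev c t).len, (tm y).val j = 2 * (ev c t).val j := fun j hj => by
    rw [val_tm_lt _ (hj.trans hyl), hy, val_mul_left _ _ hj]
  have hyv' : (tm y).val (ev c t).len = 2 := by
    rw [val_tm_lt _ hyl, hy, val_mul_dg, mul_one]
  have hsv : ∀ k, ∀ j < (ev c t).len,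
      ((2 : ℤ) • ev c (t ++ [Sum.inl k])).val j = 2 * (ev c t).val j := fun k j hj => by
    rw [val_smul, ev_append, val_mul_left _ _ hj]
  have hsv' : ∀ k, ((2 : ℤ) • ev c (t ++ [Sum.inl k])).val (ev c t).len = 2 * k := fun k => by
    rw [val_smul, ev_append, ev_single]
    congr 1
    exact val_mul_dg _ _
  have hsl : ∀ k, (ev c t).len < (ev c (t ++ [Sum.inl k])).len := fun k => by
    rw [ev_append, ev_single]
    exact lt_add_one _
  have hup : LtB (ev c (t ++ [Sum.inl 2])).len (tm y) ((2 : ℤ) • ev c (t ++ [Sum.inl 2])) :=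
    ⟨_, hsl 2, fun j hj => by rw [hyv j hj, hsv 2 j hj], by rw [hyv', hsv']; norm_num⟩
  have hdn : LtB (ev c (t ++ [Sum.inl 0])).len ((2 : ℤ) • ev c (t ++ [Sum.inl 0])) (tm y) :=
    ⟨_, hsl 0, fun j hj => by rw [hyv j hj, hsv 0 j hj], by rw [hyv', hsv']; norm_num⟩
  have hβ' : ∀ k : ℤ, n.2.1.1 ≤ (ev c' (t' ++ [Sum.inl k])).len := fun k => by
    rw [ev_append, len_mul]
    exact hβ.trans le_self_add
  have hfin1 : ∀ k : ℤ, LtB (P * dg (n.2.2 * k)).len (P * dg (n.2.2 * k)) (tm (f y)) →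
      (n, t ++ [Sum.inl 2], t' ++ [Sum.inl k]) ∈ Qi c c' T f := by
    intro k hk
    refine ⟨hβ' k, y, hyT, Or.inl ⟨hup, ?_⟩⟩
    rw [hO]
    exact hk
  have hfin2 : ∀ k : ℤ, LtB (P * dg (n.2.2 * k)).len (tm (f y)) (P * dg (n.2.2 * k)) →
      (n, t ++ [Sum.inl 0], t' ++ [Sum.inl k]) ∈ Qi c c' T f := by
    intro k hk
    refine ⟨hβ' k, y, hyT, Or.inr ⟨hdn, ?_⟩⟩
    rw [hO]
    exact hk
  by_cases hag : ∀ i < P.len, (tm (f y)).val i = P.val i
  · obtain ⟨k₁, k₂, hk⟩ : ∃ k₁ k₂ : ℤ, n.2.2 * k₁ < n.2.2 * k₂ := by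
      rcases lt_or_gt_of_ne hz with h | h
      · exact ⟨1, 0, by rw [mul_one, mul_zero]; exact h⟩
      · exact ⟨0, 1, by rw [mul_one, mul_zero]; exact h⟩
    by_cases hq : (tm (f y)).val P.len < n.2.2 * k₂
    · refine ⟨0, k₂, hfin2 k₂ ⟨P.len, hOl _, fun j hj => ?_, ?_⟩⟩
      · rw [val_mul_left _ _ hj, hag j hj]
      · rw [val_mul_dg]
        exact hq
    · refine ⟨2, k₁, hfin1 k₁ ⟨P.len, hOl _, fun j hj => ?_, ?_⟩⟩
      · rw [val_mul_left _ _ hj, hag j hj]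
      · rw [val_mul_dg]
        exact hk.trans_le (not_lt.1 hq)
  · push Not at hag
    obtain ⟨i, hi, hi'⟩ := hag
    obtain ⟨k, hk, hk1, hk2⟩ := exists_first hi'
    have hkP : k < P.len := hk.trans_lt hi
    have hv : ∀ j ≤ k, (P * dg (n.2.2 * 0)).val j = P.val j := fun j hj =>
      val_mul_left _ _ (hj.trans_lt hkP)
    rcases lt_or_gt_of_ne hk2 with h | h
    · refine ⟨0, 0, hfin2 0 ⟨k, hkP.trans (hOl _), fun j hj => ?_, ?_⟩⟩
      · rw [hv j hj.le, hk1 j hj]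
      · rw [hv k le_rfl]
        exact h
    · refine ⟨2, 0, hfin1 0 ⟨k, hkP.trans (hOl _), fun j hj => ?_, ?_⟩⟩
      · rw [hv j hj.le, hk1 j hj]
      · rw [hv k le_rfl]
        exact h

/-- there is no increasing map between the lines of different sets -/
theorem key_incomparable
    (hen : ∀ δ < ω₁, (∀ k, Vw δ (en δ k)) ∧ ∀ w, Vw δ w → ∃ k, en δ k = w)
    (he : ∀ δ < ω₁, 0 < δ → (∀ k, (e δ k).1 < δ) ∧ ∀ x : Ow, x.1 < δ → ∃ k, e δ k = x)
    (hg : Gen2 en e g) (F G : Set Ow) {ξ : Ow} (hne : ¬ (ξ ∈ F ↔ ξ ∈ G)) (f : Sq → Sq)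
    (hf : ∀ t ∈ Gen (cF en e g F) ω₁, f t ∈ Gen (cF en e g G) ω₁)
    (hmono : ∀ t ∈ Gen (cF en e g F) ω₁, ∀ t' ∈ Gen (cF en e g F) ω₁,
      Lt (tm t) (tm t') → Lt (tm (f t)) (tm (f t'))) : False := by
  have hadm := adm_XF (e := e) hen g F
  have hadm' := adm_XF (e := e) hen g G
  have hgood : Good (cF en e g F) ω₁ := sys_good hadm
  have hgood' : Good (cF en e g G) ω₁ := sys_good hadm'
  obtain ⟨c, hc⟩ : ∃ c, c = cF en e g F := ⟨_, rfl⟩
  obtain ⟨c', hc'⟩ : ∃ c', c' = cF en e g G := ⟨_, rfl⟩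
  rw [← hc] at hf hmono hgood
  rw [← hc'] at hf hgood'
  have hT : TP ω₁ (Gen c ω₁) := TP_Gen ind_omega_one hgood
  have hT' : TP ω₁ (Gen c' ω₁) := TP_Gen ind_omega_one hgood'
  have hinj : ∀ t ∈ Gen c ω₁, ∀ t' ∈ Gen c ω₁, f t = f t' → t = t' := by
    intro t ht t' ht' e
    by_contra hcon
    rcases tm_total hcon with h | h
    · have h1 := hmono t ht t' ht' h
      rw [e] at h1
      exact Lt_irrefl _ h1
    · have h1 := hmono t' ht' t ht h
      rw [e] at h1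
      exact Lt_irrefl _ h1
  have hbd : ∀ β, β < ω₁ → ∃ γ < ω₁, ∀ t ∈ Gen c ω₁, (f t).len ≤ β → t.len < γ := by
    intro β hβ
    have hc2 : {t | t ∈ Gen c ω₁ ∧ (f t).len < β + 1}.Countable := by
      refine Set.MapsTo.countable_of_injOn (f := f) (t := {s | s ∈ Gen c' ω₁ ∧ s.len < β + 1}) ?_ ?_
        (Gen_countable_lt hgood' (ind_omega_one.add_one hβ))
      · exact fun t ht => ⟨hf t ht.1, ht.2⟩
      · exact fun t ht t' ht' e => hinj t ht.1 t' ht'.1 e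
    obtain ⟨γ, hγ, hγ'⟩ := exists_bound (hc2.image Sq.len) (by
      rintro _ ⟨t, ht, rfl⟩
      exact hT.len _ ht.1)
    exact ⟨γ, hγ, fun t ht hl => hγ' _ ⟨t, ⟨ht, Order.lt_add_one_iff.2 hl⟩, rfl⟩⟩
  choose! H hH hH' using hbd
  obtain ⟨δ, hδ, hi, hcl, hreq⟩ := hg F G (Qi c c' (Gen c ω₁) f) (fun β => max (H β) ξ.1)
    (fun β hβ => max_lt (hH β hβ) ξ.2)
  have hξδ : ξ.1 < δ := (max_lt_iff.1 (hcl 0 hi.pos)).2
  have hcl' : ∀ β < δ, H β < δ := fun β hβ => (max_lt_iff.1 (hcl β hβ)).1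
  have hgδ : Good c δ := hgood.mono hδ.le
  have hgδ' : Good c' δ := hgood'.mono hδ.le
  obtain ⟨i₀, hi₀⟩ := (he δ hδ hi.pos).2 ξ hξδ
  have hneq : ch (e δ) F i₀ ≠ ch (e δ) G i₀ := by
    classical
    rw [ch, ch, hi₀]
    intro h
    apply hne
    by_cases h1 : ξ ∈ F
    · rw [decide_eq_true h1] at h
      exact ⟨fun _ => of_decide_eq_true h.symm, fun _ => h1⟩
    · rw [decide_eq_false h1] at h
      exact ⟨fun h2 => absurd h2 h1, fun h2 => absurd h2 (of_decide_eq_false h.symm)⟩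
  have hmeet := hreq (by
    rintro n ⟨hws, hβ, hz⟩ σ
    obtain ⟨m, hm⟩ := exists_ext (en δ) hneq σ
    obtain ⟨u₀, hu₀, hu₀'⟩ := exists_wlen hδ.le n.2.1.1 hβ
    have hxV : Vw δ (xw (en δ) (ch (e δ) F) (zz σ) m) := Vw_xw (hen δ hδ).1 _ _ _
    have hxV' : Vw δ (xw (en δ) (ch (e δ) G) (zz σ) m) := Vw_xw (hen δ hδ).1 _ _ _
    have hβl : n.2.1.1 ≤ (ev c' (xw (en δ) (ch (e δ) G) (zz σ) m ++ u₀)).len := by
      rw [len_ev hgδ' (Vw_append hxV' hu₀), wlen_append, hu₀']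
      exact le_add_self
    obtain ⟨k, k', hkk⟩ := Qi_dense (c := c) (c' := c') hT f hz
      (t := xw (en δ) (ch (e δ) F) (zz σ) m) (Gen_mono c hδ.le (ev_mem hxV)) hβl
    obtain ⟨j, hj⟩ := (hen δ hδ).2 [Sum.inl k] (Vw_single trivial)
    obtain ⟨j', hj'⟩ := (hen δ hδ).2 (u₀ ++ [Sum.inl k']) (Vw_append hu₀ (Vw_single trivial))
    obtain ⟨τ, hτ, h1, h2⟩ := hm j j'
    refine ⟨τ, m + 1, hτ, ?_⟩
    rw [h1, h2, hj, hj', ← List.append_assoc (xw (en δ) (ch (e δ) G) (zz σ) m)]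
    exact Qi_ext hkk)
  have hspec := sys_spec hadm δ hδ hi
  have hspec' := sys_spec hadm' δ hδ hi
  have hb : c δ ∈ Gen c ω₁ := by
    have h1 := mem_Gen_branch (c := c) (β := 0) hi hδ hi.pos one_ne_zero
    rwa [tl_zero, one_smul'] at h1
  have hbl : (c δ).len = δ := (hgood δ hδ hi).1
  have hfb := hf _ hb
  have hfbl : δ ≤ (f (c δ)).len := by
    by_contra hcon
    have h1 := (hH' _ ((not_le.1 hcon).trans hδ) _ hb le_rfl).trans (hcl' _ (not_le.1 hcon))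
    rw [hbl] at h1
    exact lt_irrefl _ h1
  have hrT := hT'.res δ _ hfb
  have hrl : ((f (c δ)).res δ).len = δ := len_res_of_le _ hfbl
  rcases Gen_str hi hδ hgood' hrT hrl.le with h1 | ⟨s, hs, β, hβ, z, hz, er⟩
  · exact absurd hrl h1.ne
  obtain ⟨ws, hws, hws'⟩ := mem_ev hδ.le (Gen_smul (two_ne_zero (α := ℤ)) hs)
  obtain ⟨m, hm1, y, hy, hm2⟩ := hmeet (ws, ⟨β, hβ.trans hδ⟩, 2 * z)
    ⟨hws, hβ, mul_ne_zero two_ne_zero hz⟩
  simp only at hm1 hm2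
  have hx : (c δ).res (ev c (XF en e g F δ m)).len = ev c (XF en e g F δ m) := by
    rw [hc]
    exact hspec.2 m
  have hx' : (c' δ).res (ev c' (XF en e g G δ m)).len = ev c' (XF en e g G δ m) := by
    rw [hc']
    exact hspec'.2 m
  have hxl : (ev c (XF en e g F δ m)).len < δ := by
    rw [len_ev hgδ (hadm.vw δ hδ m), ← len_ev hgδ (hadm.vw δ hδ m)]
    exact (TP_Gen hi hgδ).len _ (ev_mem (hadm.vw δ hδ m))
  have hxl' : (ev c' (XF en e g G δ m)).len < δ :=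
    (TP_Gen hi hgδ').len _ (ev_mem (hadm'.vw δ hδ m))
  -- the two sides
  have hv1 : ∀ j < (ev c (XF en e g F δ m)).len,
      ((2 : ℤ) • ev c (XF en e g F δ m)).val j = (tm (c δ)).val j := by
    intro j hj
    have h1 : (ev c (XF en e g F δ m)).val j = (c δ).val j := by
      have h2 := val_res (c δ) hj
      rwa [hx] at h2
    rw [val_tm_lt _ (by rw [hbl]; exact hj.trans hxl), val_smul, h1]
  have hOe : ev c' ws * (2 * z) • tl β (ev c' (XF en e g G δ m)) =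
      (2 : ℤ) • ((f (c δ)).res (s.len + ((ev c' (XF en e g G δ m)).len - β))) := by
    have h1 : s.len + ((ev c' (XF en e g G δ m)).len - β) < δ :=
      hi.2 _ ((TP_Gen hi hgδ').len s hs) _ ((Ordinal.sub_le.2 le_add_self).trans_lt hxl')
    have h2 : (f (c δ)).res (s.len + ((ev c' (XF en e g G δ m)).len - β)) =
        s * z • tl β (ev c' (XF en e g G δ m)) := by
      have h3 := res_op (s := s) (b := c' δ) z hm1
      rw [hx', ← er, res_res, min_eq_right h1.le] at h3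
      exact h3
    rw [h2, Sq.smul_mul', hws', smul_smul']
  have hv2 : ∀ j < (ev c' ws * (2 * z) • tl β (ev c' (XF en e g G δ m))).len,
      (ev c' ws * (2 * z) • tl β (ev c' (XF en e g G δ m))).val j = (tm (f (c δ))).val j := by
    rw [hOe]
    intro j hj
    rw [len_smul, len_res] at hj
    rw [val_tm_lt _ (lt_of_lt_of_le hj (min_le_left _ _)), val_smul,
      val_res _ (lt_of_lt_of_le hj (min_le_right _ _))]
  rcases hm2 with ⟨k1, k2⟩ | ⟨k1, k2⟩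
  · have h1 : Lt (tm y) (tm (c δ)) := (k1.congr le_rfl (fun _ _ => rfl) hv1).lt
    have h2 : Lt (tm (f (c δ))) (tm (f y)) := (k2.congr le_rfl hv2 fun _ _ => rfl).lt
    exact Lt_asymm h2 (hmono y hy _ hb h1)
  · have h1 : Lt (tm (c δ)) (tm y) := (k1.congr le_rfl hv1 fun _ _ => rfl).lt
    have h2 : Lt (tm (f y)) (tm (f (c δ))) := (k2.congr le_rfl (fun _ _ => rfl) hv2).lt
    exact Lt_asymm h2 (hmono _ hb y hy h1)

end Pool.Agent.DAL
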