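import Pool.Agent.DAL.Sys

/-!
# The parametrized diamond principle
-/

set_option autoImplicit false

namespace Pool.Agent.DAL

open Ordinal Sq Topology

/-- diamond implies the parametrized diamond principle -/
theorem diamondNonM_of_diamond (h : Diamond) : DiamondNonM := by
  classical
  obtain ⟨A, -, hA⟩ := h
  intro M _ hM2
  have h1 : ∀ δ : Ordinal.{0}, ∃ r : ℕ → ℕ, δ < ω₁ →
      ((fun i : Set.Iio δ => decide (i.1 ∈ A δ)), r) ∈ M δ := by
    intro δ
    by_cases hδ : δ < ω₁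
    · obtain ⟨r, hr⟩ := (dense_of_mem_residual
        (hM2 δ hδ (fun i : Set.Iio δ => decide (i.1 ∈ A δ)))).nonempty
      exact ⟨r, fun _ => hr⟩
    · exact ⟨fun _ => 0, fun h => absurd h hδ⟩
  choose g hg using h1
  refine ⟨g, fun f C hC => ?_⟩
  obtain ⟨δ, ⟨h2, h3⟩, h4⟩ := hA {i | i < ω₁ ∧ f i = true} (fun i hi => hi.1) C hC
  refine ⟨δ, ⟨h2, ?_⟩, h4⟩
  have h5 : (fun i : Set.Iio δ => f i.1) = fun i : Set.Iio δ => decide (i.1 ∈ A δ) := by
    funext i
    have h6 : i.1 ∈ A δ ↔ f i.1 = true := by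
      rw [← h3]
      constructor
      · exact fun h => h.1.2
      · exact fun h => ⟨⟨lt_trans i.2 h2, h⟩, i.2⟩
    by_cases h7 : f i.1 = true
    · rw [h7, decide_eq_true (h6.2 h7)]
    · rw [Bool.not_eq_true] at h7
      rw [h7, decide_eq_false (by rw [h6, h7]; decide)]
  rw [h5]
  exact hg δ h2

/-- the data which are coded -/
abbrev Cd : Type 1 := Ow ⊕ Ow ⊕ ((Wd × Ow × ℤ) × Wd × Wd)

lemma exists_J : ∃ J : Cd → Ow, Function.Injective J := by
  have hκ : Cardinal.aleph0 ≤ Cardinal.mk Ow := by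
    rw [Cardinal.mk_Iio_ordinal, Cardinal.aleph0_le_lift]
    have h1 : (ω : Ordinal.{0}).card ≤ (ω₁ : Ordinal.{0}).card :=
      Ordinal.card_le_card omega0_lt_omega_one.le
    rwa [card_omega0] at h1
  have hκ2 : Cardinal.mk Ow * Cardinal.mk Ow = Cardinal.mk Ow := Cardinal.mul_eq_self hκ
  have hκ3 : Cardinal.mk Ow + Cardinal.mk Ow = Cardinal.mk Ow := Cardinal.add_eq_self hκ
  have hℤ : Cardinal.lift.{1} (Cardinal.mk ℤ) ≤ Cardinal.mk Ow := by
    rw [Cardinal.mk_int, Cardinal.lift_aleph0]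
    exact hκ
  have hG : Cardinal.mk Gw ≤ Cardinal.mk Ow := by
    simp only [Gw, Cardinal.mk_sum, Cardinal.mk_prod, Cardinal.lift_id, Cardinal.lift_uzero]
    have h1 := mul_le_mul' le_rfl (mul_le_mul' (le_refl (Cardinal.mk Ow)) hℤ)
      (a := Cardinal.mk Ow)
    rw [hκ2, hκ2] at h1
    exact (add_le_add hℤ h1).trans_eq hκ3
  have hGinf : Infinite Gw := Infinite.of_injective (fun k : ℤ => (Sum.inl k : Gw)) Sum.inl_injective
  have hW : Cardinal.mk Wd ≤ Cardinal.mk Ow := by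
    rw [Wd, Cardinal.mk_list_eq_mk]
    exact hG
  have hC : Cardinal.mk Cd ≤ Cardinal.mk Ow := by
    simp only [Cd, Cardinal.mk_sum, Cardinal.mk_prod, Cardinal.lift_id, Cardinal.lift_uzero]
    have h1 : Cardinal.mk Ow * Cardinal.lift.{1} (Cardinal.mk ℤ) ≤ Cardinal.mk Ow :=
      (mul_le_mul' le_rfl hℤ).trans_eq hκ2
    have h2 : Cardinal.mk Wd * (Cardinal.mk Ow * Cardinal.lift.{1} (Cardinal.mk ℤ)) ≤
        Cardinal.mk Ow := (mul_le_mul' hW h1).trans_eq hκ2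
    have h3 : Cardinal.mk Wd * Cardinal.mk Wd ≤ Cardinal.mk Ow :=
      (mul_le_mul' hW hW).trans_eq hκ2
    have h4 := (mul_le_mul' h2 h3).trans_eq hκ2
    exact (add_le_add le_rfl ((add_le_add le_rfl h4).trans_eq hκ3)).trans_eq hκ3
  obtain ⟨J⟩ := (Cardinal.le_def _ _).1 hC
  exact ⟨J, J.injective⟩

lemma isOpen_xw (en : ℕ → Wd) (m : ℕ) (t : Wd) :
    IsOpen {p : (ℕ → Bool) × (ℕ → ℕ) | xw en p.1 p.2 m = t} := by
  rw [isOpen_iff_mem_nhds]
  rintro ⟨a₀, h₀⟩ hp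
  have e1 : ∀ i, ∀ᶠ p : (ℕ → Bool) × (ℕ → ℕ) in 𝓝 (a₀, h₀), p.1 i = a₀ i := by
    intro i
    have hc : Continuous fun p : (ℕ → Bool) × (ℕ → ℕ) => p.1 i :=
      (continuous_apply i).comp continuous_fst
    exact (hc.tendsto (a₀, h₀)).eventually (IsOpen.mem_nhds (isOpen_discrete ({a₀ i} : Set Bool))
      (Set.mem_singleton (a₀ i)))
  have e2 : ∀ i, ∀ᶠ p : (ℕ → Bool) × (ℕ → ℕ) in 𝓝 (a₀, h₀), p.2 i = h₀ i := by
    intro i
    have hc : Continuous fun p : (ℕ → Bool) × (ℕ → ℕ) => p.2 i :=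
      (continuous_apply i).comp continuous_snd
    exact (hc.tendsto (a₀, h₀)).eventually (IsOpen.mem_nhds (isOpen_discrete ({h₀ i} : Set ℕ))
      (Set.mem_singleton (h₀ i)))
  have e3 : ∀ᶠ p : (ℕ → Bool) × (ℕ → ℕ) in 𝓝 (a₀, h₀), ∀ i ∈ Finset.range m, p.1 i = a₀ i :=
    (Filter.eventually_all_finset _).2 fun i _ => e1 i
  have e4 : ∀ᶠ p : (ℕ → Bool) × (ℕ → ℕ) in 𝓝 (a₀, h₀), ∀ i ∈ Finset.range m,
      p.2 (Encodable.encode (bs a₀ i)) = h₀ (Encodable.encode (bs a₀ i)) :=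
    (Filter.eventually_all_finset _).2 fun i _ => e2 _
  filter_upwards [e3, e4] with p h1 h2
  have h3 : xw en p.1 p.2 m = xw en a₀ h₀ m := by
    symm
    refine xw_congr en (fun i hi => (h1 i (Finset.mem_range.2 hi)).symm) fun i hi => ?_
    exact (h2 i (Finset.mem_range.2 hi)).symm
  exact h3.trans hp

section meas

variable {X : Type 1} [MeasurableSpace X] {A A' : ℕ → X → Bool}
  {R : (Wd × Ow × ℤ) → Wd → Wd → X → Bool} {en : ℕ → Wd} {δ : Ordinal.{0}}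

lemma meas_xw (hA : ∀ i, Measurable (A i)) (m : ℕ) (t : Wd) :
    MeasurableSet {p : X × (ℕ → ℕ) | xw en (fun i => A i p.1) p.2 m = t} := by
  have h1 : Measurable fun p : X × (ℕ → ℕ) => ((fun i => A i p.1, p.2) : (ℕ → Bool) × (ℕ → ℕ)) :=
    (measurable_pi_lambda _ fun i => (hA i).comp measurable_fst).prodMk measurable_snd
  exact h1 (isOpen_xw en m t).measurableSet

lemma meas_ok (hδ : δ < ω₁) (hen : ∀ k, Vw δ (en k)) (hA : ∀ i, Measurable (A i))
    (hA' : ∀ i, Measurable (A' i)) (hR : ∀ n t t', Measurable (R n t t')) (n : Wd × Ow × ℤ)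
    (m : ℕ) :
    MeasurableSet {p : X × (ℕ → ℕ) | R n (xw en (fun i => A i p.1) p.2 m)
      (xw en (fun i => A' i p.1) p.2 m) p.1 = true} := by
  have h1 : {p : X × (ℕ → ℕ) | R n (xw en (fun i => A i p.1) p.2 m)
      (xw en (fun i => A' i p.1) p.2 m) p.1 = true} =
      ⋃ t ∈ {w : Wd | Vw δ w}, ⋃ t' ∈ {w : Wd | Vw δ w},
        ({p : X × (ℕ → ℕ) | xw en (fun i => A i p.1) p.2 m = t} ∩
        {p : X × (ℕ → ℕ) | xw en (fun i => A' i p.1) p.2 m = t'}) ∩
        {p : X × (ℕ → ℕ) | R n t t' p.1 = true} := by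
    ext p
    simp only [Set.mem_iUnion, Set.mem_inter_iff, Set.mem_ofPred_eq]
    constructor
    · intro h
      exact ⟨_, Vw_xw hen _ _ _, _, Vw_xw hen _ _ _, ⟨rfl, rfl⟩, h⟩
    · rintro ⟨t, -, t', -, ⟨rfl, rfl⟩, h⟩
      exact h
  rw [h1]
  refine MeasurableSet.biUnion (Vw_countable hδ) fun t _ =>
    MeasurableSet.biUnion (Vw_countable hδ) fun t' _ => ?_
  refine ((meas_xw hA m t).inter (meas_xw hA' m t')).inter ?_
  exact ((hR n t t').comp measurable_fst) (MeasurableSet.of_discrete (s := {true}))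

end meas

/-- the eventually zero sequence of a list -/
def zz (τ : List ℕ) (i : ℕ) : ℕ := τ.getD i 0

/-- the set of requirements -/
def Nn (δ : Ordinal.{0}) : Set (Wd × Ow × ℤ) := {n | Vw δ n.1 ∧ n.2.1.1 < δ ∧ n.2.2 ≠ 0}

lemma Nn_countable {δ : Ordinal.{0}} (hδ : δ < ω₁) : (Nn δ).Countable := by
  have c1 : {x : Ow | x.1 < δ}.Countable := (countable_Iio hδ).preimage Subtype.val_injective
  refine ((Vw_countable hδ).prod (c1.prod (Set.countable_univ (α := ℤ)))).mono ?_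
  rintro ⟨w, β, z⟩ h
  exact ⟨h.1, h.2.1, Set.mem_univ _⟩

open Classical in
/-- reading off a bit -/
noncomputable def rd (J : Cd → Ow) (δ : Ordinal.{0}) (p : Cd) (x : Set.Iio δ → Bool) : Bool :=
  if h : (J p).1 < δ then x ⟨(J p).1, h⟩ else false

lemma measurable_rd (J : Cd → Ow) (δ : Ordinal.{0}) (p : Cd) : Measurable (rd J δ p) := by
  by_cases h : (J p).1 < δ
  · have h1 : rd J δ p = fun x : Set.Iio δ → Bool => x ⟨(J p).1, h⟩ := by
      funext x
      exact dif_pos h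
    rw [h1]
    exact measurable_pi_apply _
  · have h1 : rd J δ p = fun _ : Set.Iio δ → Bool => false := by
      funext x
      exact dif_neg h
    rw [h1]
    exact measurable_const

/-- the requirement `n` is met at `m` -/
def Ok (J : Cd → Ow) (en : ℕ → Wd) (e : ℕ → Ow) (δ : Ordinal.{0}) (n : Wd × Ow × ℤ) (m : ℕ)
    (x : Set.Iio δ → Bool) (h : ℕ → ℕ) : Prop :=
  rd J δ (Sum.inr (Sum.inr (n, xw en (fun i => rd J δ (Sum.inl (e i)) x) h m,
    xw en (fun i => rd J δ (Sum.inr (Sum.inl (e i))) x) h m))) x = true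

/-- all the requirements are dense -/
def Dn (J : Cd → Ow) (en : ℕ → Wd) (e : ℕ → Ow) (δ : Ordinal.{0}) (x : Set.Iio δ → Bool) : Prop :=
  ∀ n ∈ Nn δ, ∀ σ : List ℕ, ∃ τ : List ℕ, ∃ m, (∀ i < σ.length, zz τ i = zz σ i) ∧
    Ok J en e δ n m x (zz τ)

/-- the set of pairs `(x, h)` such that `h` meets the requirements, if they are dense -/
def Ms (J : Cd → Ow) (en : ℕ → Wd) (e : ℕ → Ow) (δ : Ordinal.{0}) :
    Set ((Set.Iio δ → Bool) × (ℕ → ℕ)) :=
  {p | Dn J en e δ p.1 → ∀ n ∈ Nn δ, ∃ m, Ok J en e δ n m p.1 p.2}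

lemma measurable_Ok {δ : Ordinal.{0}} (hδ : δ < ω₁) (J : Cd → Ow) {en : ℕ → Wd}
    (hen : ∀ k, Vw δ (en k)) (e : ℕ → Ow) (n : Wd × Ow × ℤ) (m : ℕ) :
    MeasurableSet {p : (Set.Iio δ → Bool) × (ℕ → ℕ) | Ok J en e δ n m p.1 p.2} :=
  meas_ok (R := fun n t t' => rd J δ (Sum.inr (Sum.inr (n, t, t')))) hδ hen
    (fun _ => measurable_rd J δ _) (fun _ => measurable_rd J δ _)
    (fun _ _ _ => measurable_rd J δ _) n m

lemma measurable_Ms {δ : Ordinal.{0}} (hδ : δ < ω₁) (J : Cd → Ow) {en : ℕ → Wd}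
    (hen : ∀ k, Vw δ (en k)) (e : ℕ → Ow) : MeasurableSet (Ms J en e δ) := by
  have h1 : MeasurableSet {x : Set.Iio δ → Bool | Dn J en e δ x} := by
    have h2 : {x : Set.Iio δ → Bool | Dn J en e δ x} = ⋂ n ∈ Nn δ, ⋂ σ : List ℕ, ⋃ τ : List ℕ,
        ⋃ m : ℕ, {x : Set.Iio δ → Bool | (∀ i < σ.length, zz τ i = zz σ i) ∧
          Ok J en e δ n m x (zz τ)} := by
      ext x
      simp only [Dn, Set.mem_ofPred_eq, Set.mem_iInter, Set.mem_iUnion]
    rw [h2]
    refine MeasurableSet.biInter (Nn_countable hδ) fun n _ => MeasurableSet.iInter fun σ =>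
      MeasurableSet.iUnion fun τ => MeasurableSet.iUnion fun m => ?_
    by_cases h3 : ∀ i < σ.length, zz τ i = zz σ i
    · have h4 : {x : Set.Iio δ → Bool | (∀ i < σ.length, zz τ i = zz σ i) ∧
          Ok J en e δ n m x (zz τ)} = (fun x => (x, zz τ)) ⁻¹'
          {p : (Set.Iio δ → Bool) × (ℕ → ℕ) | Ok J en e δ n m p.1 p.2} := by
        ext x
        simp only [Set.mem_ofPred_eq, Set.mem_preimage]
        exact ⟨fun h => h.2, fun h => ⟨h3, h⟩⟩
      rw [h4]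
      exact (measurable_id.prodMk measurable_const) (measurable_Ok hδ J hen e n m)
    · have h4 : {x : Set.Iio δ → Bool | (∀ i < σ.length, zz τ i = zz σ i) ∧
          Ok J en e δ n m x (zz τ)} = ∅ := by
        ext x
        simp only [Set.mem_ofPred_eq, Set.mem_empty_iff_false, iff_false]
        exact fun h => h3 h.1
      rw [h4]
      exact MeasurableSet.empty
  have h2 : Ms J en e δ = (Prod.fst ⁻¹' {x : Set.Iio δ → Bool | Dn J en e δ x})ᶜ ∪
      ⋂ n ∈ Nn δ, ⋃ m : ℕ, {p : (Set.Iio δ → Bool) × (ℕ → ℕ) | Ok J en e δ n m p.1 p.2} := by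
    ext p
    simp only [Ms, Set.mem_ofPred_eq, Set.mem_union, Set.mem_compl_iff, Set.mem_preimage,
      Set.mem_iInter, Set.mem_iUnion]
    exact imp_iff_not_or
  rw [h2]
  exact (measurable_fst h1).compl.union (MeasurableSet.biInter (Nn_countable hδ) fun n _ =>
    MeasurableSet.iUnion fun m => measurable_Ok hδ J hen e n m)

lemma isOpen_Ok (J : Cd → Ow) (en : ℕ → Wd) (e : ℕ → Ow) (δ : Ordinal.{0})
    (n : Wd × Ow × ℤ) (m : ℕ) (x : Set.Iio δ → Bool) :
    IsOpen {h : ℕ → ℕ | Ok J en e δ n m x h} := by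
  rw [isOpen_iff_mem_nhds]
  intro h₀ hp
  have h1 : ∀ a : ℕ → Bool, ∀ᶠ h : ℕ → ℕ in 𝓝 h₀, xw en a h m = xw en a h₀ m := by
    intro a
    have hc : Continuous fun h : ℕ → ℕ => (a, h) := by fun_prop
    exact hc.continuousAt.eventually ((isOpen_xw en m _).mem_nhds rfl)
  filter_upwards [h1 (fun i => rd J δ (Sum.inl (e i)) x),
    h1 (fun i => rd J δ (Sum.inr (Sum.inl (e i))) x)] with h e1 e2
  show Ok J en e δ n m x h
  rw [Ok, e1, e2]
  exact hp

lemma residual_Ms {δ : Ordinal.{0}} (hδ : δ < ω₁) (J : Cd → Ow) (en : ℕ → Wd) (e : ℕ → Ow)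
    (x : Set.Iio δ → Bool) : {r | (x, r) ∈ Ms J en e δ} ∈ residual (ℕ → ℕ) := by
  by_cases hD : Dn J en e δ x
  · have h1 : (⋂ n ∈ Nn δ, ⋃ m : ℕ, {h : ℕ → ℕ | Ok J en e δ n m x h}) ∈ residual (ℕ → ℕ) := by
      rw [countable_bInter_mem (Nn_countable hδ)]
      intro n hn
      have ho : IsOpen (⋃ m : ℕ, {h : ℕ → ℕ | Ok J en e δ n m x h}) :=
        isOpen_iUnion fun m => isOpen_Ok J en e δ n m x
      apply residual_of_dense_open ho
      rw [dense_iff_inter_open]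
      rintro U hU ⟨h₀, hh₀⟩
      obtain ⟨I, u, hu, hIU⟩ := isOpen_pi_iff.1 hU h₀ hh₀
      obtain ⟨τ, m, hτ, hm⟩ := hD n hn ((List.range (I.sup id + 1)).map h₀)
      refine ⟨zz τ, hIU ?_, Set.mem_iUnion.2 ⟨m, hm⟩⟩
      intro i hi
      have h2 : i < I.sup id + 1 := Nat.lt_succ_of_le (Finset.le_sup (f := id) hi)
      have h3 := hτ i (by rw [List.length_map, List.length_range]; exact h2)
      have h4 : zz ((List.range (I.sup id + 1)).map h₀) i = h₀ i := by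
        rw [zz, List.getD_eq_getElem?_getD]
        simp [h2]
      rw [h3, h4]
      exact (hu i hi).2
    filter_upwards [h1] with r hr
    intro _ n hn
    obtain ⟨m, hm⟩ := Set.mem_iUnion.1 (Set.mem_iInter₂.1 hr n hn)
    exact ⟨m, hm⟩
  · filter_upwards with r
    exact fun h => absurd h hD

end Pool.Agent.DAL
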