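import Mathlib

/-!
# Sequences of integers of ordinal length

The monoid of sequences under concatenation, restrictions, tails and integer multiples.
-/

set_option autoImplicit false

namespace Pool.Agent.DAL

open Ordinal

/-- sequences of integers of ordinal length (`val i = 0` if `i` is not below the length) -/
@[ext]
structure Sq where
  len : Ordinal.{0}
  val : Ordinal.{0} → ℤ
  out : ∀ i, len ≤ i → val i = 0

namespace Sq

open Classical in
/-- concatenation -/
noncomputable instance : Mul Sq where
  mul s t :=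
    { len := s.len + t.len
      val := fun i => if i < s.len then s.val i else t.val (i - s.len)
      out := fun i hi => by
        have h1 : ¬ i < s.len := not_lt.2 (le_trans le_self_add hi)
        rw [if_neg h1]
        apply t.out
        have h2 : s.len + t.len - s.len ≤ i - s.len := by
          rw [Ordinal.sub_le, Ordinal.add_sub_cancel_of_le (not_lt.1 h1)]
          exact hi
        rwa [Ordinal.add_sub_cancel] at h2 }

instance : One Sq where
  one := { len := 0, val := fun _ => 0, out := fun _ _ => rfl }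

@[simp] lemma len_one : (1 : Sq).len = 0 := rfl

@[simp] lemma val_one (i : Ordinal.{0}) : (1 : Sq).val i = 0 := rfl

@[simp] lemma len_mul (s t : Sq) : (s * t).len = s.len + t.len := rfl

lemma val_mul_left (s t : Sq) {i : Ordinal.{0}} (hi : i < s.len) : (s * t).val i = s.val i :=
  if_pos hi

lemma val_mul_right (s t : Sq) (i : Ordinal.{0}) : (s * t).val (s.len + i) = t.val i := by
  have h1 : ¬ s.len + i < s.len := not_lt.2 le_self_add
  refine (if_neg h1).trans ?_
  rw [Ordinal.add_sub_cancel]

lemma cases_add (a i : Ordinal.{0}) : i < a ∨ ∃ j, i = a + j := by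
  by_cases h : i < a
  · exact Or.inl h
  · exact Or.inr ⟨i - a, (Ordinal.add_sub_cancel_of_le (not_lt.1 h)).symm⟩

lemma ext' {s t : Sq} (h : s.len = t.len) (h' : ∀ i < s.len, s.val i = t.val i) : s = t := by
  refine Sq.ext h (funext fun i => ?_)
  by_cases hi : i < s.len
  · exact h' i hi
  · rw [s.out i (not_lt.1 hi), t.out i (h ▸ not_lt.1 hi)]

noncomputable instance : Monoid Sq where
  mul_assoc s t u := by
    refine Sq.ext (add_assoc _ _ _) (funext fun i => ?_)
    rcases cases_add s.len i with hi | ⟨j, rfl⟩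
    · rw [val_mul_left s (t * u) hi, val_mul_left (s * t) u (lt_of_lt_of_le hi le_self_add),
        val_mul_left s t hi]
    · rw [val_mul_right s (t * u)]
      rcases cases_add t.len j with hj | ⟨k, rfl⟩
      · rw [val_mul_left t u hj, val_mul_left (s * t) u ((add_lt_add_iff_left _).2 hj),
          val_mul_right]
      · rw [val_mul_right t u, ← add_assoc]
        exact val_mul_right (s * t) u k
  one_mul s := by
    refine Sq.ext (zero_add _) (funext fun i => ?_)
    have h1 := val_mul_right 1 s i
    rwa [len_one, zero_add] at h1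
  mul_one s := by
    refine Sq.ext (add_zero _) (funext fun i => ?_)
    rcases cases_add s.len i with hi | ⟨j, rfl⟩
    · exact val_mul_left s 1 hi
    · rw [val_mul_right, val_one, s.out _ le_self_add]

open Classical in
/-- restriction (initial segment) -/
noncomputable def res (s : Sq) (γ : Ordinal.{0}) : Sq where
  len := min s.len γ
  val i := if i < γ then s.val i else 0
  out i hi := by
    split_ifs with h
    · rcases min_le_iff.1 hi with h1 | h1
      · exact s.out i h1
      · exact absurd h (not_lt.2 h1)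
    · rfl

/-- tail -/
noncomputable def tl (β : Ordinal.{0}) (s : Sq) : Sq where
  len := s.len - β
  val i := s.val (β + i)
  out i hi := s.out _ (Ordinal.sub_le.1 hi)

/-- integer multiples of all the terms -/
instance : SMul ℤ Sq where
  smul z s :=
    { len := s.len
      val := fun i => z * s.val i
      out := fun i hi => by rw [s.out i hi, mul_zero] }

open Classical in
/-- the sequence of length one -/
noncomputable def dg (k : ℤ) : Sq where
  len := 1
  val i := if i = 0 then k else 0
  out i hi := if_neg (fun h => by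
    rw [h] at hi
    exact absurd hi (not_le.2 zero_lt_one))

@[simp] lemma len_dg (k : ℤ) : (dg k).len = 1 := rfl

@[simp] lemma val_dg (k : ℤ) : (dg k).val 0 = k := if_pos rfl

@[simp] lemma len_res (s : Sq) (γ : Ordinal.{0}) : (s.res γ).len = min s.len γ := rfl

lemma val_res (s : Sq) {γ i : Ordinal.{0}} (hi : i < γ) : (s.res γ).val i = s.val i := if_pos hi

@[simp] lemma len_tl (β : Ordinal.{0}) (s : Sq) : (tl β s).len = s.len - β := rfl

@[simp] lemma val_tl (β i : Ordinal.{0}) (s : Sq) : (tl β s).val i = s.val (β + i) := rfl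

@[simp] lemma len_smul (z : ℤ) (s : Sq) : (z • s).len = s.len := rfl

@[simp] lemma val_smul (z : ℤ) (s : Sq) (i : Ordinal.{0}) : (z • s).val i = z * s.val i := rfl

lemma eq_one {s : Sq} (h : s.len = 0) : s = 1 :=
  ext' h fun _ hi => absurd (h ▸ hi) (not_lt.2 (zero_le))

lemma smul_mul' (z : ℤ) (s t : Sq) : z • (s * t) = (z • s) * (z • t) := by
  refine Sq.ext rfl (funext fun i => ?_)
  rcases cases_add s.len i with hi | ⟨j, rfl⟩
  · rw [val_smul, val_mul_left s t hi, val_mul_left (z • s) (z • t) hi, val_smul]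
  · rw [val_smul, val_mul_right]
    exact (val_mul_right (z • s) (z • t) j).symm

lemma smul_smul' (z w : ℤ) (s : Sq) : z • w • s = (z * w) • s :=
  Sq.ext rfl (funext fun i => by simp only [val_smul, mul_assoc])

lemma one_smul' (s : Sq) : (1 : ℤ) • s = s :=
  Sq.ext rfl (funext fun i => by simp only [val_smul, one_mul])

lemma smul_one' (z : ℤ) : z • (1 : Sq) = 1 :=
  Sq.ext rfl (funext fun i => by simp only [val_smul, val_one, mul_zero])

lemma smul_dg (z k : ℤ) : z • dg k = dg (z * k) := by
  refine ext' rfl fun i hi => ?_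
  have h1 : i = 0 := Order.lt_one_iff.1 hi
  rw [h1, val_smul, val_dg, val_dg]

lemma res_of_le (s : Sq) {γ : Ordinal.{0}} (h : s.len ≤ γ) : s.res γ = s := by
  refine ext' (min_eq_left h) fun i hi => ?_
  exact val_res s (lt_of_lt_of_le hi (min_le_right _ _))

@[simp] lemma res_zero (s : Sq) : s.res 0 = 1 := eq_one (min_eq_right zero_le)

lemma len_res_of_le (s : Sq) {γ : Ordinal.{0}} (h : γ ≤ s.len) : (s.res γ).len = γ :=
  min_eq_right h

lemma res_res (s : Sq) (γ γ' : Ordinal.{0}) : (s.res γ).res γ' = s.res (min γ γ') := by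
  refine ext' (by simp only [len_res, min_assoc]) fun i hi => ?_
  simp only [len_res] at hi
  have h1 : i < γ := lt_of_lt_of_le hi ((min_le_left _ _).trans (min_le_right _ _))
  have h2 : i < γ' := lt_of_lt_of_le hi (min_le_right _ _)
  rw [val_res _ h2, val_res _ h1, val_res _ (lt_min h1 h2)]

lemma res_mul_le (s t : Sq) {γ : Ordinal.{0}} (h : γ ≤ s.len) : (s * t).res γ = s.res γ := by
  refine ext' ?_ fun i hi => ?_
  · rw [len_res, len_res, len_mul, min_eq_right h, min_eq_right (h.trans le_self_add)]
  · have h1 : i < γ := lt_of_lt_of_le hi (min_le_right _ _)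
    rw [val_res _ h1, val_res _ h1, val_mul_left _ _ (lt_of_lt_of_le h1 h)]

lemma res_mul_ge (s t : Sq) (γ : Ordinal.{0}) : (s * t).res (s.len + γ) = s * t.res γ := by
  refine ext' ?_ fun i hi => ?_
  · rw [len_res, len_mul, len_mul, len_res, min_add_add_left]
  · have h1 : i < s.len + γ := lt_of_lt_of_le hi (min_le_right _ _)
    rw [val_res _ h1]
    rcases cases_add s.len i with hi' | ⟨j, rfl⟩
    · rw [val_mul_left _ _ hi', val_mul_left _ _ hi']
    · rw [val_mul_right, val_mul_right, val_res _ ((add_lt_add_iff_left _).1 h1)]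

lemma res_mul_self (s t : Sq) : (s * t).res s.len = s := by
  rw [res_mul_le _ _ le_rfl, res_of_le _ le_rfl]

lemma tl_mul_le (s t : Sq) {β : Ordinal.{0}} (h : β ≤ s.len) : tl β (s * t) = tl β s * t := by
  obtain ⟨r, hr⟩ : ∃ r, s.len = β + r := ⟨s.len - β, (Ordinal.add_sub_cancel_of_le h).symm⟩
  have hl : (tl β s).len = r := by rw [len_tl, hr, Ordinal.add_sub_cancel]
  refine ext' ?_ fun i hi => ?_
  · rw [len_tl, len_mul, len_mul, hl, hr, add_assoc, Ordinal.add_sub_cancel]
  · rw [val_tl]
    rcases cases_add r i with hi' | ⟨j, rfl⟩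
    · rw [val_mul_left _ _ (by rw [hr]; exact (add_lt_add_iff_left _).2 hi'),
        val_mul_left _ _ (by rw [hl]; exact hi'), val_tl]
    · rw [← add_assoc, ← hr, val_mul_right]
      have h2 := val_mul_right (tl β s) t j
      rw [hl] at h2
      exact h2.symm

lemma tl_mul_ge (s t : Sq) (β : Ordinal.{0}) : tl (s.len + β) (s * t) = tl β t := by
  refine ext' ?_ fun i hi => ?_
  · rw [len_tl, len_tl, len_mul, ← Ordinal.sub_sub, Ordinal.add_sub_cancel]
  · rw [val_tl, val_tl, add_assoc, val_mul_right]

lemma tl_mul_self (s t : Sq) : tl s.len (s * t) = t := by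
  refine ext' ?_ fun i hi => ?_
  · rw [len_tl, len_mul, Ordinal.add_sub_cancel]
  · rw [val_tl, val_mul_right]

@[simp] lemma tl_zero (s : Sq) : tl 0 s = s :=
  ext' (by rw [len_tl, Ordinal.sub_zero]) fun i _ => by rw [val_tl, zero_add]

lemma tl_of_le {β : Ordinal.{0}} {s : Sq} (h : s.len ≤ β) : tl β s = 1 :=
  eq_one (by rw [len_tl, Ordinal.sub_eq_zero_iff_le.2 h])

lemma tl_tl (β γ : Ordinal.{0}) (s : Sq) : tl γ (tl β s) = tl (β + γ) s :=
  ext' (by rw [len_tl, len_tl, len_tl, Ordinal.sub_sub]) fun i _ => by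
    rw [val_tl, val_tl, val_tl, add_assoc]

lemma res_mul_tl (s : Sq) {β : Ordinal.{0}} (h : β ≤ s.len) : s.res β * tl β s = s := by
  have hl := len_res_of_le s h
  refine ext' ?_ fun i hi => ?_
  · rw [len_mul, hl, len_tl, Ordinal.add_sub_cancel_of_le h]
  · rcases cases_add β i with hi' | ⟨j, rfl⟩
    · rw [val_mul_left _ _ (by rw [hl]; exact hi'), val_res _ hi']
    · have h2 := val_mul_right (s.res β) (tl β s) j
      rw [hl] at h2
      rw [h2, val_tl]

lemma res_tl (β γ : Ordinal.{0}) (s : Sq) : (tl β s).res γ = tl β (s.res (β + γ)) := by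
  refine ext' ?_ fun i hi => ?_
  · rw [len_res, len_tl, len_tl, len_res]
    rcases le_total s.len (β + γ) with h | h
    · rw [min_eq_left h, min_eq_left (Ordinal.sub_le.2 h)]
    · rw [min_eq_right h, Ordinal.add_sub_cancel]
      apply min_eq_right
      rw [← Ordinal.add_sub_cancel β γ]
      exact Ordinal.sub_le.2 (h.trans (by
        rw [Ordinal.add_sub_cancel_of_le (le_self_add.trans h)]))
  · have h1 : i < γ := lt_of_lt_of_le hi (min_le_right _ _)
    rw [val_res _ h1, val_tl, val_tl, val_res _ ((add_lt_add_iff_left _).2 h1)]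

lemma res_smul (z : ℤ) (s : Sq) (γ : Ordinal.{0}) : (z • s).res γ = z • s.res γ :=
  ext' rfl fun i hi => by
    have h1 : i < γ := lt_of_lt_of_le hi (min_le_right _ _)
    rw [val_res _ h1, val_smul, val_smul, val_res _ h1]

lemma tl_smul (z : ℤ) (s : Sq) (β : Ordinal.{0}) : tl β (z • s) = z • tl β s :=
  ext' rfl fun i _ => by rw [val_tl, val_smul, val_smul, val_tl]

lemma smul_inj {z : ℤ} (hz : z ≠ 0) {s t : Sq} (h : z • s = z • t) : s = t := by
  refine ext' (congrArg (fun u : Sq => u.len) h :) fun i _ => ?_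
  have h1 := congrArg (fun u : Sq => u.val i) h
  simp only [val_smul] at h1
  exact mul_left_cancel₀ hz h1

lemma mul_inj {s t u : Sq} (h : s * t = s * u) : t = u := by
  rw [← tl_mul_self s t, h, tl_mul_self]

end Sq

/-- additively indecomposable limit ordinals -/
def Ind (δ : Ordinal.{0}) : Prop := 1 < δ ∧ ∀ a < δ, ∀ b < δ, a + b < δ

lemma Ind.pos {δ : Ordinal.{0}} (h : Ind δ) : 0 < δ := zero_lt_one.trans h.1

lemma Ind.add_one {δ a : Ordinal.{0}} (h : Ind δ) (ha : a < δ) : a + 1 < δ := h.2 a ha 1 h.1

lemma Ind.add_ne {δ a : Ordinal.{0}} (h : Ind δ) : a + 1 ≠ δ := by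
  intro e
  have h1 : a < δ := by rw [← e]; exact lt_add_one a
  exact absurd e (h.add_one h1).ne

lemma Ind.sub {δ b : Ordinal.{0}} (h : Ind δ) (hb : b < δ) : δ - b = δ := by
  apply le_antisymm
  · rw [Ordinal.sub_le]
    exact le_add_self
  · by_contra hcon
    have h1 := h.2 b hb _ (not_le.1 hcon)
    rw [Ordinal.add_sub_cancel_of_le hb.le] at h1
    exact absurd h1 (lt_irrefl _)

lemma Ind.add {δ b : Ordinal.{0}} (h : Ind δ) (hb : b < δ) : b + δ = δ := by
  have h1 := Ordinal.add_sub_cancel_of_le hb.le
  rwa [h.sub hb] at h1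

lemma ind_omega_one : Ind ω₁ := by
  refine ⟨?_, fun a ha b hb => isPrincipal_add_omega 1 ha hb⟩
  exact lt_of_lt_of_le one_lt_omega0 omega0_lt_omega_one.le

end Pool.Agent.DAL
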