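import Pool.Agent.DAL.Wd
import Pool.Agent.DAL.Lex

/-!
# The system of branches given by a sequence of real numbers
-/

set_option autoImplicit false

namespace Pool.Agent.DAL

open Ordinal Sq

/-- the first `m` values of `a` -/
def bs (a : ℕ → Bool) (m : ℕ) : List Bool := (List.range m).map a

lemma length_bs (a : ℕ → Bool) (m : ℕ) : (bs a m).length = m := by
  rw [bs, List.length_map, List.length_range]

lemma bs_congr {a a' : ℕ → Bool} {m : ℕ} (h : ∀ i < m, a i = a' i) : bs a m = bs a' m := by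
  rw [bs, bs]
  apply List.map_congr_left
  intro i hi
  exact h i (List.mem_range.1 hi)

lemma bs_ne {a a' : ℕ → Bool} {m i : ℕ} (hi : i < m) (h : a i ≠ a' i) : bs a m ≠ bs a' m := by
  intro e
  apply h
  have h1 : (bs a m)[i]? = (bs a' m)[i]? := by rw [e]
  simpa [bs, hi] using h1

/-- the sequence of words given by `a` and the real number `h` -/
def xw (en : ℕ → Wd) (a : ℕ → Bool) (h : ℕ → ℕ) : ℕ → Wd
  | 0 => []
  | m + 1 => xw en a h m ++ en (h (Encodable.encode (bs a m))) ++ en m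

lemma xw_congr (en : ℕ → Wd) {a a' : ℕ → Bool} {h h' : ℕ → ℕ} {m : ℕ}
    (ha : ∀ i < m, a i = a' i)
    (hh : ∀ i < m, h (Encodable.encode (bs a i)) = h' (Encodable.encode (bs a i))) :
    xw en a h m = xw en a' h' m := by
  induction m with
  | zero => rfl
  | succ m ih =>
    rw [xw, xw, ih (fun i hi => ha i (hi.trans (Nat.lt_succ_self m)))
      (fun i hi => hh i (hi.trans (Nat.lt_succ_self m))), hh m (Nat.lt_succ_self m),
      bs_congr fun i hi => ha i (hi.trans (Nat.lt_succ_self m))]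

open Classical in
/-- the characteristic function of a set, along an enumeration -/
noncomputable def ch (e : ℕ → Ow) (F : Set Ow) (i : ℕ) : Bool := decide (e i ∈ F)

open Classical in
/-- the recursion step -/
noncomputable def stf (X : Ordinal.{0} → ℕ → Wd) (δ : Ordinal.{0}) (c : Ordinal.{0} → Sq) : Sq :=
  if h : ∃ b, Br δ (Gen c δ) b ∧ ∀ m, b.res (ev c (X δ m)).len = ev c (X δ m)
    then h.choose else 1

open Classical in
/-- the system of branches -/
noncomputable def sys (X : Ordinal.{0} → ℕ → Wd) : Ordinal.{0} → Sq :=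
  WellFounded.fix (r := (· < ·)) wellFounded_lt fun δ IH =>
    stf X δ (fun ε => if h : ε < δ then IH ε h else 1)

lemma sys_eq (X : Ordinal.{0} → ℕ → Wd) (δ : Ordinal.{0}) :
    ∃ c : Ordinal.{0} → Sq, (∀ ε < δ, c ε = sys X ε) ∧ sys X δ = stf X δ c := by
  classical
  refine ⟨fun ε => if h : ε < δ then sys X ε else 1, fun ε hε => dif_pos hε, ?_⟩
  rw [sys, WellFounded.fix_eq]

/-- the sequences of words are increasing and their lengths are cofinal -/
structure Adm (X : Ordinal.{0} → ℕ → Wd) : Prop where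
  vw : ∀ δ < ω₁, ∀ m, Vw δ (X δ m)
  app : ∀ δ < ω₁, ∀ m, ∃ u, Vw δ u ∧ X δ (m + 1) = X δ m ++ u
  cof : ∀ δ < ω₁, Ind δ → ∀ γ < δ, ∃ m, γ ≤ wlen (X δ m)

theorem sys_spec {X : Ordinal.{0} → ℕ → Wd} (hX : Adm X) (δ : Ordinal.{0}) (hδ : δ < ω₁)
    (hi : Ind δ) : Br δ (Gen (sys X) δ) (sys X δ) ∧
      ∀ m, (sys X δ).res (ev (sys X) (X δ m)).len = ev (sys X) (X δ m) := by
  induction δ using WellFoundedLT.induction with
  | ind δ ih =>
    have hgood : Good (sys X) δ := fun ε hε hiε => (ih ε hε (hε.trans hδ) hiε).1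
    obtain ⟨c, hc, hsys⟩ := sys_eq X δ
    have hGen : Gen c δ = Gen (sys X) δ := Gen_congr fun ε hε _ => hc ε hε
    have hev : ∀ m, ev c (X δ m) = ev (sys X) (X δ m) := fun m =>
      ev_congr (fun ε hε _ => hc ε hε) (hX.vw δ hδ m)
    have hex : ∃ b, Br δ (Gen c δ) b ∧ ∀ m, b.res (ev c (X δ m)).len = ev c (X δ m) := by
      rw [hGen]
      simp only [hev]
      apply exists_lim (TP_Gen hi hgood) (fun m => ev (sys X) (X δ m))
      · exact fun m => ev_mem (hX.vw δ hδ m)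
      · intro m
        obtain ⟨u, -, hu'⟩ := hX.app δ hδ m
        exact ⟨ev (sys X) u, by rw [hu', ev_append]⟩
      · intro γ hγ
        obtain ⟨m, hm⟩ := hX.cof δ hδ hi γ hγ
        exact ⟨m, by rw [len_ev hgood (hX.vw δ hδ m)]; exact hm⟩
    have h1 := hex.choose_spec
    have h2 : sys X δ = hex.choose := by
      rw [hsys, stf, dif_pos hex]
    rw [← h2, hGen] at h1
    simp only [hev] at h1
    exact h1

theorem sys_good {X : Ordinal.{0} → ℕ → Wd} (hX : Adm X) : Good (sys X) ω₁ :=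
  fun ε hε hi => (sys_spec hX ε hε hi).1

/-- the sequences of words given by a set, a sequence of real numbers, and enumerations -/
noncomputable def XF (en : Ordinal.{0} → ℕ → Wd) (e : Ordinal.{0} → ℕ → Ow)
    (g : Ordinal.{0} → ℕ → ℕ) (F : Set Ow) (δ : Ordinal.{0}) (m : ℕ) : Wd :=
  xw (en δ) (ch (e δ) F) (g δ) m

lemma Vw_xw {en : ℕ → Wd} {δ : Ordinal.{0}} (hen : ∀ k, Vw δ (en k)) (a : ℕ → Bool) (h : ℕ → ℕ)
    (m : ℕ) : Vw δ (xw en a h m) := by
  induction m with
  | zero => exact Vw_nil δ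
  | succ m ih => exact Vw_append (Vw_append ih (hen _)) (hen _)

theorem adm_XF {en : Ordinal.{0} → ℕ → Wd} {e : Ordinal.{0} → ℕ → Ow}
    (hen : ∀ δ < ω₁, (∀ k, Vw δ (en δ k)) ∧ ∀ w, Vw δ w → ∃ k, en δ k = w)
    (g : Ordinal.{0} → ℕ → ℕ) (F : Set Ow) : Adm (XF en e g F) where
  vw δ hδ m := Vw_xw (hen δ hδ).1 _ _ _
  app δ hδ m := ⟨_, Vw_append ((hen δ hδ).1 _) ((hen δ hδ).1 _), List.append_assoc _ _ _⟩
  cof δ hδ hi γ hγ := by
    obtain ⟨w, hw, hw'⟩ := exists_wlen hδ.le γ hγ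
    obtain ⟨k, hk⟩ := (hen δ hδ).2 w hw
    refine ⟨k + 1, ?_⟩
    rw [XF, xw, wlen_append, hk, hw']
    exact le_add_self

end Pool.Agent.DAL
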