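import Pool.Agent.DAL.Cl

/-!
# Formal words in the generators, and limits of sequences of words
-/

set_option autoImplicit false

namespace Pool.Agent.DAL

open Ordinal Sq

/-- the countable ordinals -/
abbrev Ow : Type 1 := Set.Iio (ω₁ : Ordinal.{0})

/-- formal generators -/
abbrev Gw : Type 1 := ℤ ⊕ (Ow × Ow × ℤ)

/-- formal words -/
abbrev Wd : Type 1 := List Gw

/-- the generator is a generator of the tree of length `δ` -/
def Vg (δ : Ordinal.{0}) (x : Gw) : Prop :=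
  Sum.elim (fun _ => True) (fun p : Ow × Ow × ℤ =>
    Ind p.1.1 ∧ p.1.1 < δ ∧ p.2.1.1 < p.1.1 ∧ p.2.2 ≠ 0) x

/-- the word is a word for an element of the tree of length `δ` -/
def Vw (δ : Ordinal.{0}) (w : Wd) : Prop := ∀ x ∈ w, Vg δ x

/-- the value of a generator -/
noncomputable def evg (c : Ordinal.{0} → Sq) (x : Gw) : Sq :=
  Sum.elim (fun k => dg k) (fun p : Ow × Ow × ℤ => p.2.2 • tl p.2.1.1 (c p.1.1)) x

/-- the value of a word -/
noncomputable def ev (c : Ordinal.{0} → Sq) (w : Wd) : Sq := (w.map (evg c)).prod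

@[simp] lemma ev_nil (c : Ordinal.{0} → Sq) : ev c [] = 1 := rfl

lemma ev_append (c : Ordinal.{0} → Sq) (w w' : Wd) : ev c (w ++ w') = ev c w * ev c w' := by
  rw [ev, List.map_append, List.prod_append]
  rfl

lemma ev_single (c : Ordinal.{0} → Sq) (x : Gw) : ev c [x] = evg c x := by
  rw [ev, List.map_singleton, List.prod_singleton]

lemma Vw_nil (δ : Ordinal.{0}) : Vw δ [] := fun _ h => absurd h List.not_mem_nil

lemma Vw_append {δ : Ordinal.{0}} {w w' : Wd} (h : Vw δ w) (h' : Vw δ w') : Vw δ (w ++ w') := by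
  intro x hx
  rcases List.mem_append.1 hx with h1 | h1
  · exact h x h1
  · exact h' x h1

lemma Vw_single {δ : Ordinal.{0}} {x : Gw} (h : Vg δ x) : Vw δ [x] := fun y hy => by
  rw [List.mem_singleton.1 hy]
  exact h

lemma evg_mem {c : Ordinal.{0} → Sq} {δ : Ordinal.{0}} {x : Gw} (hx : Vg δ x) :
    evg c x ∈ Gen c δ := by
  rcases x with k | ⟨ε, β, z⟩
  · exact mem_Gen_dg _ _ _
  · exact mem_Gen_branch hx.1 hx.2.1 hx.2.2.1 hx.2.2.2

lemma ev_mem {c : Ordinal.{0} → Sq} {δ : Ordinal.{0}} {w : Wd} (hw : Vw δ w) :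
    ev c w ∈ Gen c δ := by
  apply Submonoid.list_prod_mem
  intro s hs
  obtain ⟨x, hx, rfl⟩ := List.mem_map.1 hs
  exact evg_mem (hw x hx)

lemma mem_ev {c : Ordinal.{0} → Sq} {δ : Ordinal.{0}} (hδ : δ ≤ ω₁) {s : Sq}
    (hs : s ∈ Gen c δ) : ∃ w, Vw δ w ∧ ev c w = s := by
  induction hs using Submonoid.closure_induction with
  | mem x hx =>
    rcases hx with ⟨k, rfl⟩ | ⟨ε, β, z, h1, h2, h3, h4, rfl⟩
    · exact ⟨[Sum.inl k], Vw_single trivial, ev_single _ _⟩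
    · exact ⟨[Sum.inr (⟨ε, h2.trans_le hδ⟩, ⟨β, h3.trans (h2.trans_le hδ)⟩, z)],
        Vw_single ⟨h1, h2, h3, h4⟩, ev_single _ _⟩
  | one => exact ⟨[], Vw_nil _, rfl⟩
  | mul x y _ _ hx hy =>
    obtain ⟨w, hw, hw'⟩ := hx
    obtain ⟨v, hv, hv'⟩ := hy
    exact ⟨w ++ v, Vw_append hw hv, by rw [ev_append, hw', hv']⟩

lemma ev_congr {c c' : Ordinal.{0} → Sq} {δ : Ordinal.{0}} (h : ∀ ε < δ, Ind ε → c ε = c' ε)
    {w : Wd} (hw : Vw δ w) : ev c w = ev c' w := by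
  rw [ev, ev]
  congr 1
  apply List.map_congr_left
  intro x hx
  have h1 := hw x hx
  rcases x with k | ⟨ε, β, z⟩
  · rfl
  · show z • tl β.1 (c ε.1) = z • tl β.1 (c' ε.1)
    rw [h _ h1.2.1 h1.1]

/-- the length of a generator -/
def lg (x : Gw) : Ordinal.{0} := Sum.elim (fun _ => 1) (fun p : Ow × Ow × ℤ => p.1.1) x

/-- the length of the value of a word -/
noncomputable def wlen (w : Wd) : Ordinal.{0} := (w.map lg).sum

lemma wlen_append (w w' : Wd) : wlen (w ++ w') = wlen w + wlen w' := by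
  rw [wlen, List.map_append, List.sum_append]
  rfl

lemma len_ev {c : Ordinal.{0} → Sq} {δ : Ordinal.{0}} (hg : Good c δ) {w : Wd}
    (hw : Vw δ w) : (ev c w).len = wlen w := by
  induction w with
  | nil => rfl
  | cons x w ih =>
    have h1 : x :: w = [x] ++ w := rfl
    rw [h1, ev_append, wlen_append, len_mul, ih fun y hy => hw y (List.mem_cons_of_mem _ hy),
      ev_single]
    congr 1
    have h2 := hw x List.mem_cons_self
    rw [wlen, List.map_singleton, List.sum_singleton]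
    rcases x with k | ⟨ε, β, z⟩
    · rfl
    · exact len_gen hg z h2.1 h2.2.1 h2.2.2.1

lemma exists_wlen {δ : Ordinal.{0}} (hδ : δ ≤ ω₁) (γ : Ordinal.{0}) (hγ : γ < δ) :
    ∃ w, Vw δ w ∧ wlen w = γ := by
  induction γ using WellFoundedLT.induction with
  | ind γ ih =>
    by_cases h1 : Ind γ
    · refine ⟨[Sum.inr (⟨γ, hγ.trans_le hδ⟩, ⟨0, ind_omega_one.pos⟩, 1)],
        Vw_single ⟨h1, hγ, h1.pos, one_ne_zero⟩, ?_⟩
      rw [wlen, List.map_singleton, List.sum_singleton]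
      rfl
    by_cases h2 : γ ≤ 1
    · rcases h2.lt_or_eq with h3 | h3
      · exact ⟨[], Vw_nil _, (Order.lt_one_iff.1 h3).symm⟩
      · refine ⟨[Sum.inl 0], Vw_single trivial, ?_⟩
        rw [wlen, List.map_singleton, List.sum_singleton, h3]
        rfl
    have h3 : ∃ a < γ, ∃ b < γ, γ ≤ a + b := by
      by_contra hcon
      push Not at hcon
      exact h1 ⟨not_le.1 h2, hcon⟩
    obtain ⟨a, ha, b, hb, hab⟩ := h3
    obtain ⟨s, hs, hs'⟩ := ih a ha (ha.trans hγ)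
    have h4 : γ - a < γ := (Ordinal.sub_le.2 hab).trans_lt hb
    obtain ⟨t, ht, ht'⟩ := ih _ h4 (h4.trans hγ)
    exact ⟨s ++ t, Vw_append hs ht, by
      rw [wlen_append, hs', ht', Ordinal.add_sub_cancel_of_le ha.le]⟩

lemma Vw_countable {δ : Ordinal.{0}} (hδ : δ < ω₁) : {w : Wd | Vw δ w}.Countable := by
  have h1 : {x : Gw | Vg δ x}.Countable := by
    have c1 : {x : Ow | x.1 < δ}.Countable := (countable_Iio hδ).preimage Subtype.val_injective
    have h2 : {x : Gw | Vg δ x} ⊆ Set.range (Sum.inl : ℤ → Gw) ∪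
        (Sum.inr : Ow × Ow × ℤ → Gw) '' ({x : Ow | x.1 < δ} ×ˢ ({x : Ow | x.1 < δ} ×ˢ Set.univ)) := by
      rintro (k | ⟨ε, β, z⟩) hx
      · exact Or.inl ⟨k, rfl⟩
      · exact Or.inr ⟨(ε, β, z), ⟨hx.2.1, hx.2.2.1.trans hx.2.1, Set.mem_univ _⟩, rfl⟩
    exact ((Set.countable_range _).union ((c1.prod (c1.prod Set.countable_univ)).image _)).mono h2
  have h3 : Countable {x : Gw | Vg δ x} := h1.to_subtype
  have h4 : {w : Wd | Vw δ w} ⊆
      Set.range (fun l : List {x : Gw | Vg δ x} => l.map Subtype.val) := by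
    intro w hw
    refine ⟨w.attach.map fun x => ⟨x.1, hw x.1 x.2⟩, ?_⟩
    show (w.attach.map fun x => (⟨x.1, hw x.1 x.2⟩ : {x : Gw | Vg δ x})).map Subtype.val = w
    rw [List.map_map]
    exact List.attach_map_subtype_val w
  exact (Set.countable_range _).mono h4

lemma exists_en : ∃ en : Ordinal.{0} → ℕ → Wd, ∀ δ < ω₁,
    (∀ k, Vw δ (en δ k)) ∧ ∀ w, Vw δ w → ∃ k, en δ k = w := by
  have h1 : ∀ δ : Ordinal.{0}, ∃ f : ℕ → Wd, δ < ω₁ →
      (∀ k, Vw δ (f k)) ∧ ∀ w, Vw δ w → ∃ k, f k = w := by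
    intro δ
    by_cases hδ : δ < ω₁
    · obtain ⟨f, hf⟩ := (Vw_countable hδ).exists_eq_range ⟨[], Vw_nil δ⟩
      refine ⟨f, fun _ => ⟨fun k => ?_, fun w hw => ?_⟩⟩
      · have h2 : f k ∈ {w : Wd | Vw δ w} := by rw [hf]; exact ⟨k, rfl⟩
        exact h2
      · have h2 : w ∈ {w : Wd | Vw δ w} := hw
        rw [hf] at h2
        exact h2
    · exact ⟨fun _ => [], fun h => absurd h hδ⟩
  choose f hf using h1
  exact ⟨f, hf⟩

lemma exists_e : ∃ e : Ordinal.{0} → ℕ → Ow, ∀ δ < ω₁, 0 < δ →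
    (∀ k, (e δ k).1 < δ) ∧ ∀ x : Ow, x.1 < δ → ∃ k, e δ k = x := by
  have h1 : ∀ δ : Ordinal.{0}, ∃ f : ℕ → Ow, δ < ω₁ → 0 < δ →
      (∀ k, (f k).1 < δ) ∧ ∀ x : Ow, x.1 < δ → ∃ k, f k = x := by
    intro δ
    by_cases hδ : δ < ω₁ ∧ 0 < δ
    · have c1 : {x : Ow | x.1 < δ}.Countable :=
        (countable_Iio hδ.1).preimage Subtype.val_injective
      obtain ⟨f, hf⟩ := c1.exists_eq_range ⟨⟨0, ind_omega_one.pos⟩, hδ.2⟩
      refine ⟨f, fun _ _ => ⟨fun k => ?_, fun w hw => ?_⟩⟩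
      · have h2 : f k ∈ {x : Ow | x.1 < δ} := by rw [hf]; exact ⟨k, rfl⟩
        exact h2
      · have h2 : w ∈ {x : Ow | x.1 < δ} := hw
        rw [hf] at h2
        exact h2
    · exact ⟨fun _ => ⟨0, ind_omega_one.pos⟩, fun h h' => absurd ⟨h, h'⟩ hδ⟩
  choose f hf using h1
  exact ⟨f, hf⟩

/-- `b` is a branch of length `δ` of `T` -/
def Br (δ : Ordinal.{0}) (T : Submonoid Sq) (b : Sq) : Prop := b.len = δ ∧ ∀ γ < δ, b.res γ ∈ T

/-- limits of sequences of elements of the tree -/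
theorem exists_lim {δ : Ordinal.{0}} {T : Submonoid Sq} (hT : TP δ T) (t : ℕ → Sq)
    (ht : ∀ n, t n ∈ T) (hS : ∀ n, ∃ u, t (n + 1) = t n * u) (hcof : ∀ γ < δ, ∃ n, γ ≤ (t n).len) :
    ∃ b, Br δ T b ∧ ∀ n, b.res (t n).len = t n := by
  classical
  have hpre : ∀ m k, ∃ v, t (m + k) = t m * v := by
    intro m k
    induction k with
    | zero => exact ⟨1, (mul_one _).symm⟩
    | succ k ih =>
      obtain ⟨v, hv⟩ := ih
      obtain ⟨u, hu⟩ := hS (m + k)
      exact ⟨v * u, by rw [← add_assoc, hu, ← mul_assoc, ← hv]⟩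
  have hval : ∀ m n i, i < (t m).len → i < (t n).len → (t m).val i = (t n).val i := by
    intro m n i hm hn
    rcases le_total m n with h | h
    · obtain ⟨v, hv⟩ := hpre m (n - m)
      rw [Nat.add_sub_cancel' h] at hv
      rw [hv, val_mul_left _ _ hm]
    · obtain ⟨v, hv⟩ := hpre n (m - n)
      rw [Nat.add_sub_cancel' h] at hv
      rw [hv, val_mul_left _ _ hn]
  have hlen : ∀ n, (t n).len < δ := fun n => hT.len _ (ht n)
  obtain ⟨b, hbl, hbv⟩ : ∃ b : Sq, b.len = δ ∧ ∀ n i, i < (t n).len → b.val i = (t n).val i := by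
    refine ⟨⟨δ, fun i => if h : ∃ n, i < (t n).len then (t (Nat.find h)).val i else 0,
      fun i hi => ?_⟩, rfl, fun n i hi => ?_⟩
    · rw [dif_neg]
      rintro ⟨n, hn⟩
      exact absurd (hn.trans (hlen n)) (not_lt.2 hi)
    · have h : ∃ n, i < (t n).len := ⟨n, hi⟩
      show (if h : ∃ n, i < (t n).len then (t (Nat.find h)).val i else 0) = _
      rw [dif_pos h]
      exact hval _ _ _ (Nat.find_spec h) hi
  have hbr : ∀ n, b.res (t n).len = t n := by
    intro n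
    refine ext' ?_ fun i hi => ?_
    · rw [len_res, hbl]
      exact min_eq_right (hlen n).le
    · have h1 : i < (t n).len := lt_of_lt_of_le hi (min_le_right _ _)
      rw [val_res _ h1, hbv n i h1]
  refine ⟨b, ⟨hbl, fun γ hγ => ?_⟩, hbr⟩
  obtain ⟨i, hi⟩ := hcof γ hγ
  have h2 : b.res γ = (t i).res γ := by
    rw [← hbr, res_res, min_eq_right hi]
  rw [h2]
  exact hT.res _ _ (ht i)

end Pool.Agent.DAL
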